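import Pool.Agent.H76.RE.Graph

/-! Few edges of the graph can be removed without the connectivity dropping by two. -/

namespace Pool.Agent.H76.RE
open Finset

section general
variable {V : Type} [Fintype V] [DecidableEq V]

/-- a vertex with at most `k` neighbours loses at most one edge -/
lemma vertex_one {G : SimpleGraph V} {F : Finset (Sym2 V)} {k : ℕ} (hk : 2 ≤ k)
    (hF : (F : Set (Sym2 V)) ⊆ G.edgeSet) (hT : KC (G.deleteEdges (F : Set (Sym2 V))) (k - 1))
    {v : V} (nb : Finset V) (hc : nb.card ≤ k) (hnb : ∀ w, G.Adj v w → w ∈ nb)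
    {w w' : V} (h : s(v, w) ∈ F) (h' : s(v, w') ∈ F) : w = w' := by
  by_contra hne
  have aw : G.Adj v w := hF h
  have aw' : G.Adj v w' := hF h'
  have hvn : v ≠ w := aw.ne
  have := sep hT {v} ((nb.erase w).erase w' \ {v}) (x := v) (z := w) rfl (by simp)
    (fun e => hvn e.symm) (by simp) (by
      rintro x hx u hu
      have hx' : x = v := hx
      subst hx'
      have hu2 := (SimpleGraph.deleteEdges_adj).mp hu
      right
      refine mem_sdiff.mpr ⟨mem_erase.mpr ⟨?_, mem_erase.mpr ⟨?_, hnb u hu2.1⟩⟩, ?_⟩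
      · rintro rfl
        exact hu2.2 h'
      · rintro rfl
        exact hu2.2 h
      · simpa using hu2.1.ne.symm)
  have h1 : ((nb.erase w).erase w' \ {v}).card ≤ ((nb.erase w).erase w').card :=
    card_le_card sdiff_subset
  have h2 : ((nb.erase w).erase w').card = nb.card - 1 - 1 := by
    rw [card_erase_of_mem (mem_erase.mpr ⟨fun e => hne e.symm, hnb w' aw'⟩),
      card_erase_of_mem (hnb w aw)]
  omega

end general

variable {N k j : ℕ}

/-- the neighbours of a clique vertex -/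
lemma nb_cl (y : ZMod N) (i : Fin k) : ∃ nb : Finset (Vx N k j), nb.card ≤ k ∧
    ∀ w, (Gr N k j).Adj (cl y i) w → w ∈ nb := by
  classical
  refine ⟨insert (sp (y - ((i : ℕ) : ZMod N))) ((univ.erase i).image (fun l => cl y l)), ?_, ?_⟩
  · refine (card_insert_le _ _).trans ?_
    have : ((univ.erase i).image (fun l : Fin k => (cl y l : Vx N k j))).card ≤ k - 1 := by
      refine card_image_le.trans ?_
      rw [card_erase_of_mem (mem_univ _), card_univ, Fintype.card_fin]
    have hk := i.2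
    omega
  · rintro (⟨y', i'⟩ | s | t) h
    · obtain ⟨h1, h2⟩ : y = y' ∧ i ≠ i' := h
      subst h1
      exact mem_insert_of_mem (mem_image.mpr ⟨i', mem_erase.mpr ⟨fun e => h2 e.symm, mem_univ _⟩, rfl⟩)
    · have h1 : y = s + ((i : ℕ) : ZMod N) := h
      refine mem_insert.mpr (Or.inl ?_)
      show Sum.inr (Sum.inl s) = Sum.inr (Sum.inl _)
      rw [h1]
      simp
    · exact absurd h (by simp [Gr, adj])

/-- the neighbours of an extra vertex -/
lemma nb_ex [NeZero N] (hN : 2 * k ≤ N) (t : Fin j) : ∃ nb : Finset (Vx N k j), nb.card ≤ k ∧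
    ∀ w, (Gr N k j).Adj (ex t) w → w ∈ nb := by
  classical
  refine ⟨(univ : Finset (Fin k)).image (fun l : Fin k => (sp (((l : ℕ) : ZMod N)) : Vx N k j)), ?_, ?_⟩
  · refine card_image_le.trans ?_
    rw [card_univ, Fintype.card_fin]
  · rintro (⟨y', i'⟩ | s | t') h
    · exact absurd h (by simp [Gr, adj])
    · have h1 : s.val < k := h
      refine mem_image.mpr ⟨⟨s.val, h1⟩, mem_univ _, ?_⟩
      show Sum.inr (Sum.inl _) = Sum.inr (Sum.inl s)
      rw [ZMod.natCast_zmod_val]
    · exact absurd h (by simp [Gr, adj])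

variable {F : Finset (Sym2 (Vx N k j))}

/-- a clique loses at most one outgoing edge -/
lemma out_one [NeZero N] (hk : 2 ≤ k) (hN : 2 * k ≤ N)
    (hT : KC ((Gr N k j).deleteEdges (F : Set (Sym2 (Vx N k j)))) (k - 1)) (y : ZMod N)
    {i i' : Fin k} (h : s(cl y i, sp (y - ((i : ℕ) : ZMod N))) ∈ F)
    (h' : s(cl y i', sp (y - ((i' : ℕ) : ZMod N))) ∈ F) : i = i' := by
  classical
  by_contra hne
  have := sep hT {v | ∃ l : Fin k, v = cl y l}
    (((univ.erase i).erase i').image (fun l : Fin k => (sp (y - ((l : ℕ) : ZMod N)) : Vx N k j)))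
    (x := cl y i) (z := cl (y + 1) i) ⟨i, rfl⟩ (by simp) (by
      rintro ⟨l, hl⟩
      exact ne_succ (N := N) (by omega) y (Prod.mk.inj (Sum.inl.inj hl)).1.symm) (by simp) (by
      rintro x ⟨l, rfl⟩ u hu
      have hu2 := (SimpleGraph.deleteEdges_adj).mp hu
      obtain ⟨hu1, hu3⟩ := hu2
      rcases u with (⟨y', l'⟩ | s | t)
      · obtain ⟨h1, h2⟩ : y = y' ∧ l ≠ l' := hu1
        subst h1
        exact Or.inl ⟨l', rfl⟩
      · have h1 : y = s + ((l : ℕ) : ZMod N) := hu1
        have h2 : s = y - ((l : ℕ) : ZMod N) := by rw [h1]; ring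
        subst h2
        right
        refine mem_image.mpr ⟨l, mem_erase.mpr ⟨?_, mem_erase.mpr ⟨?_, mem_univ _⟩⟩, rfl⟩
        · rintro rfl
          exact hu3 h'
        · rintro rfl
          exact hu3 h
      · exact absurd hu1 (by simp [Gr, adj]))
  have h1 : (((univ.erase i).erase i').image
      (fun l : Fin k => (sp (y - ((l : ℕ) : ZMod N)) : Vx N k j))).card ≤ k - 1 - 1 := by
    refine card_image_le.trans ?_
    rw [card_erase_of_mem (mem_erase.mpr ⟨fun e => hne e.symm, mem_univ _⟩),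
      card_erase_of_mem (mem_univ _), card_univ, Fintype.card_fin]
  omega

/-- outgoing edge of clique `y` -/
def Outer (y : ZMod N) (e : Sym2 (Vx N k j)) : Prop :=
  ∃ i : Fin k, e = s(cl y i, sp (y - ((i : ℕ) : ZMod N)))

open Classical in
lemma clique_bound [NeZero N] (hk : 2 ≤ k) (hke : Even k) (hN : 2 * k ≤ N)
    (hF : (F : Set (Sym2 (Vx N k j))) ⊆ (Gr N k j).edgeSet)
    (hT : KC ((Gr N k j).deleteEdges (F : Set (Sym2 (Vx N k j)))) (k - 1)) (y : ZMod N) :
    (F.filter (fun e => ∃ i : Fin k, cl y i ∈ e)).card ≤ k / 2 := by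
  set M := F.filter (fun e => ∃ i : Fin k, cl y i ∈ e) with hM
  -- double counting
  have h1 : ∑ e ∈ M, ((univ : Finset (Fin k)).filter (fun i => (cl y i : Vx N k j) ∈ e)).card
      = ∑ i : Fin k, (M.filter (fun e => (cl y i : Vx N k j) ∈ e)).card :=
    sum_card_bipartiteAbove_eq_sum_card_bipartiteBelow (fun e (i : Fin k) => (cl y i : Vx N k j) ∈ e)
  have h2 : ∀ i : Fin k, (M.filter (fun e => (cl y i : Vx N k j) ∈ e)).card ≤ 1 := by
    intro i
    refine card_le_one.mpr fun e he e' he' => ?_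
    obtain ⟨he1, he2⟩ := mem_filter.mp he
    obtain ⟨he1', he2'⟩ := mem_filter.mp he'
    obtain ⟨w, rfl⟩ := Sym2.mem_iff_exists.mp he2
    obtain ⟨w', rfl⟩ := Sym2.mem_iff_exists.mp he2'
    obtain ⟨nb, hc, hnb⟩ := nb_cl (j := j) y i
    rw [vertex_one hk hF hT nb hc hnb (mem_filter.mp he1).1 (mem_filter.mp he1').1]
  have h3 : ∑ i : Fin k, (M.filter (fun e => (cl y i : Vx N k j) ∈ e)).card ≤ k := by
    refine (sum_le_sum fun i _ => h2 i).trans ?_
    simp
  have h4 : (M.filter (Outer y)).card ≤ 1 := by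
    refine card_le_one.mpr fun e he e' he' => ?_
    obtain ⟨he1, i, rfl⟩ := mem_filter.mp he
    obtain ⟨he1', i', rfl⟩ := mem_filter.mp he'
    rw [out_one hk hN hT y (mem_filter.mp he1).1 (mem_filter.mp he1').1]
  have h5 : ∀ e ∈ M, 2 ≤ ((univ : Finset (Fin k)).filter (fun i => (cl y i : Vx N k j) ∈ e)).card
      + (if Outer y e then 1 else 0) := by
    intro e he
    obtain ⟨heF, i, hi⟩ := mem_filter.mp he
    obtain ⟨w, rfl⟩ := Sym2.mem_iff_exists.mp hi
    have ha : (Gr N k j).Adj (cl y i) w := hF heF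
    rcases w with (⟨y', l⟩ | s | t)
    · obtain ⟨h6, h7⟩ : y = y' ∧ i ≠ l := ha
      subst h6
      have : ({i, l} : Finset (Fin k)) ⊆
          (univ : Finset (Fin k)).filter (fun i' => (cl y i' : Vx N k j) ∈ s(cl y i, cl y l)) := by
        intro x hx
        refine mem_filter.mpr ⟨mem_univ _, ?_⟩
        rcases mem_insert.mp hx with rfl | hx
        · exact Sym2.mem_mk_left _ _
        · rw [mem_singleton.mp hx]
          exact Sym2.mem_mk_right _ _
      have := card_le_card this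
      rw [card_pair h7] at this
      exact this.trans (Nat.le_add_right _ _)
    · have h6 : y = s + ((i : ℕ) : ZMod N) := ha
      have h7 : s = y - ((i : ℕ) : ZMod N) := by rw [h6]; ring
      subst h7
      have h8 : Outer y (s(cl y i, sp (y - ((i : ℕ) : ZMod N))) : Sym2 (Vx N k j)) := ⟨i, rfl⟩
      rw [if_pos h8]
      exact Nat.succ_le_succ (card_pos.mpr ⟨i, mem_filter.mpr ⟨mem_univ _, Sym2.mem_mk_left _ _⟩⟩)
    · exact absurd ha (by simp [Gr, adj])
  have h6 : 2 * M.card ≤ k + 1 := by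
    have h7 : ∑ _e ∈ M, 2 ≤ ∑ e ∈ M,
        (((univ : Finset (Fin k)).filter (fun i => (cl y i : Vx N k j) ∈ e)).card
          + (if Outer y e then 1 else 0)) := sum_le_sum h5
    rw [sum_const, smul_eq_mul, sum_add_distrib, h1, ← card_filter] at h7
    replace h4 : (M.filter (fun e => Outer y e)).card ≤ 1 := h4
    omega
  obtain ⟨c, hc⟩ := hke
  omega

open Classical in
lemma ex_bound [NeZero N] (hk : 2 ≤ k) (hN : 2 * k ≤ N)
    (hF : (F : Set (Sym2 (Vx N k j))) ⊆ (Gr N k j).edgeSet)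
    (hT : KC ((Gr N k j).deleteEdges (F : Set (Sym2 (Vx N k j)))) (k - 1)) (t : Fin j) :
    (F.filter (fun e => (ex t : Vx N k j) ∈ e)).card ≤ 1 := by
  refine card_le_one.mpr fun e he e' he' => ?_
  obtain ⟨he1, he2⟩ := mem_filter.mp he
  obtain ⟨he1', he2'⟩ := mem_filter.mp he'
  obtain ⟨w, rfl⟩ := Sym2.mem_iff_exists.mp he2
  obtain ⟨w', rfl⟩ := Sym2.mem_iff_exists.mp he2'
  obtain ⟨nb, hc, hnb⟩ := nb_ex (j := j) hN t
  rw [vertex_one hk hF hT nb hc hnb he1 he1']

open Classical in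
theorem edge_bound [NeZero N] (hk : 2 ≤ k) (hke : Even k) (hN : 2 * k ≤ N)
    (hF : (F : Set (Sym2 (Vx N k j))) ⊆ (Gr N k j).edgeSet)
    (hT : KC ((Gr N k j).deleteEdges (F : Set (Sym2 (Vx N k j)))) (k - 1)) :
    F.card ≤ N * (k / 2) + j := by
  have hsub : F ⊆ ((univ : Finset (ZMod N)).biUnion
        (fun y => F.filter (fun e => ∃ i : Fin k, (cl y i : Vx N k j) ∈ e))) ∪
      ((univ : Finset (Fin j)).biUnion (fun t => F.filter (fun e => (ex t : Vx N k j) ∈ e))) := by
    intro e he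
    have hkey : (∃ y : ZMod N, ∃ i : Fin k, (cl y i : Vx N k j) ∈ e) ∨
        ∃ t : Fin j, (ex t : Vx N k j) ∈ e := by
      have heE := hF he
      induction e using Sym2.ind with
      | _ a b =>
        have hab : (Gr N k j).Adj a b := heE
        rcases a with (⟨y, i⟩ | s | t)
        · exact Or.inl ⟨y, i, Sym2.mem_mk_left _ _⟩
        · rcases b with (⟨y, i⟩ | s' | t)
          · exact Or.inl ⟨y, i, Sym2.mem_mk_right _ _⟩
          · exact absurd hab (by simp [Gr, adj])
          · exact Or.inr ⟨t, Sym2.mem_mk_right _ _⟩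
        · exact Or.inr ⟨t, Sym2.mem_mk_left _ _⟩
    rcases hkey with ⟨y, hy⟩ | ⟨t, ht⟩
    · exact mem_union_left _ (mem_biUnion.mpr ⟨y, mem_univ _, mem_filter.mpr ⟨he, hy⟩⟩)
    · exact mem_union_right _ (mem_biUnion.mpr ⟨t, mem_univ _, mem_filter.mpr ⟨he, ht⟩⟩)
  refine (card_le_card hsub).trans ((card_union_le _ _).trans (Nat.add_le_add ?_ ?_))
  · refine card_biUnion_le.trans ((sum_le_sum fun y _ => clique_bound hk hke hN hF hT y).trans ?_)
    simp [ZMod.card]
  · refine card_biUnion_le.trans ((sum_le_sum fun t _ => ex_bound hk hN hF hT t).trans ?_)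
    simp

end Pool.Agent.H76.RE
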