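import Mathlib

/-! Connectivity after removing few vertices: a step relation, separators, transport. -/

namespace Pool.Agent.H76.RE
open Finset

variable {V : Type} [Fintype V]

/-- at least `k + 1` vertices, and connected after the removal of any fewer than `k` vertices -/
def KC (G : SimpleGraph V) (k : ℕ) : Prop :=
  k + 1 ≤ Fintype.card V ∧ ∀ S : Finset V, S.card < k → (G.induce {v | v ∉ S}).Connected

/-- a step of `G` outside `U` -/
def Ad (G : SimpleGraph V) (U : Finset V) (a b : V) : Prop := G.Adj a b ∧ a ∉ U ∧ b ∉ U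

omit [Fintype V] in
lemma Ad.symm {G : SimpleGraph V} {U : Finset V} {a b : V} (h : Ad G U a b) : Ad G U b a :=
  ⟨h.1.symm, h.2.2, h.2.1⟩

omit [Fintype V] in
lemma conn_iff (G : SimpleGraph V) (U : Finset V) :
    (G.induce {v | v ∉ U}).Connected ↔
      (∃ a, a ∉ U) ∧ ∀ a b, a ∉ U → b ∉ U → Relation.ReflTransGen (Ad G U) a b := by
  constructor
  · intro h
    refine ⟨?_, fun a b ha hb => ?_⟩
    · obtain ⟨a, ha⟩ := h.nonempty
      exact ⟨a, ha⟩
    · have key : ∀ {x y : {v | v ∉ U}} (_ : (G.induce {v | v ∉ U}).Walk x y),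
          Relation.ReflTransGen (Ad G U) (x : V) (y : V) := by
        intro x y p
        induction p with
        | nil => exact Relation.ReflTransGen.refl
        | @cons u v w huv _ ih =>
          refine Relation.ReflTransGen.head ?_ ih
          exact ⟨by simpa using huv, u.2, v.2⟩
      obtain ⟨p⟩ := h.preconnected ⟨a, ha⟩ ⟨b, hb⟩
      exact key p
  · rintro ⟨⟨a, ha⟩, h⟩
    have : Nonempty {v | v ∉ U} := ⟨⟨a, ha⟩⟩
    refine ⟨fun x y => ?_⟩
    have key : ∀ b, Relation.ReflTransGen (Ad G U) (x : V) b → ∀ hb : b ∉ U,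
        (G.induce {v | v ∉ U}).Reachable x ⟨b, hb⟩ := by
      intro b hb
      induction hb with
      | refl => intro _; exact SimpleGraph.Reachable.refl _
      | @tail c d _ hcd ih =>
        intro hd
        refine (ih hcd.2.1).trans (SimpleGraph.Adj.reachable ?_)
        simpa using hcd.1
    exact key y (h x y x.2 y.2) y.2

/-- a set `X` separated from some vertex by `A` -/
lemma sep {T : SimpleGraph V} {m : ℕ} (hT : KC T m) (X : Set V) (A : Finset V) {x z : V}
    (hx : x ∈ X) (hxA : x ∉ A) (hz : z ∉ X) (hzA : z ∉ A)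
    (h : ∀ x ∈ X, ∀ w, T.Adj x w → w ∈ X ∨ w ∈ A) : m ≤ A.card := by
  by_contra hlt
  have hc := (conn_iff T A).mp (hT.2 A (not_le.mp hlt))
  have hr := hc.2 x z hxA hzA
  have : z ∈ X := by
    clear hz hzA
    induction hr with
    | refl => exact hx
    | @tail c d _ hcd ih =>
      exact (h c ih d hcd.1).resolve_right hcd.2.2
  exact hz this

lemma KC.congr {W : Type} [Fintype W] {G : SimpleGraph V} {H : SimpleGraph W} {k : ℕ}
    (e : V ≃ W) (he : ∀ a b, G.Adj a b ↔ H.Adj (e a) (e b)) (h : KC G k) : KC H k := by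
  classical
  refine ⟨by rw [← Fintype.card_congr e]; exact h.1, fun S hS => ?_⟩
  have hc := (conn_iff G (S.map e.symm.toEmbedding)).mp (h.2 _ (by rwa [card_map]))
  have hm : ∀ a : V, a ∉ S.map e.symm.toEmbedding ↔ e a ∉ S := by
    intro a
    simp
  refine (conn_iff H S).mpr ⟨?_, fun a b ha hb => ?_⟩
  · obtain ⟨a, ha⟩ := hc.1
    exact ⟨e a, (hm a).mp ha⟩
  · have h1 := hc.2 (e.symm a) (e.symm b) ((hm _).mpr (by simpa using ha))
      ((hm _).mpr (by simpa using hb))
    have key : ∀ b : V, Relation.ReflTransGen (Ad G (S.map e.symm.toEmbedding)) (e.symm a) b →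
        Relation.ReflTransGen (Ad H S) a (e b) := by
      intro b hb
      induction hb with
      | refl => rw [Equiv.apply_symm_apply]
      | @tail c d _ hcd ih =>
        exact ih.tail ⟨(he c d).mp hcd.1, (hm c).mp hcd.2.1, (hm d).mp hcd.2.2⟩
    simpa using key _ h1

end Pool.Agent.H76.RE
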