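import Pool.Agent.H76.RE.Graph

/-! Copies of a piece `X` with `k` ports, joined through further vertices. -/

namespace Pool.Agent.H76.RE.Gen
open Finset

abbrev Vg (N : ℕ) (A : Type) (j : ℕ) := (ZMod N × A) ⊕ (ZMod N ⊕ Fin j)

variable {N k j : ℕ} {A : Type}

abbrev pt (y : ZMod N) (a : A) : Vg N A j := Sum.inl (y, a)
abbrev sp (s : ZMod N) : Vg N A j := Sum.inr (Sum.inl s)
abbrev ex (t : Fin j) : Vg N A j := Sum.inr (Sum.inr t)

def adj (X : SimpleGraph A) (x : Fin k → A) : Vg N A j → Vg N A j → Prop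
  | Sum.inl (y, a), Sum.inl (y', b) => y = y' ∧ X.Adj a b
  | Sum.inl (y, a), Sum.inr (Sum.inl s) => ∃ i : Fin k, a = x i ∧ y = s + ((i : ℕ) : ZMod N)
  | Sum.inr (Sum.inl s), Sum.inl (y, a) => ∃ i : Fin k, a = x i ∧ y = s + ((i : ℕ) : ZMod N)
  | Sum.inr (Sum.inl s), Sum.inr (Sum.inr _) => s.val < k
  | Sum.inr (Sum.inr _), Sum.inr (Sum.inl s) => s.val < k
  | _, _ => False

def Gr (N : ℕ) (j : ℕ) (X : SimpleGraph A) (x : Fin k → A) : SimpleGraph (Vg N A j) where
  Adj := adj X x
  symm := ⟨by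
    rintro (⟨y, a⟩ | s | t) (⟨y', b⟩ | s' | t') h <;> simp only [adj] at h ⊢ <;>
      first
        | exact h
        | exact ⟨h.1.symm, h.2.symm⟩⟩
  loopless := ⟨by
    rintro (⟨y, a⟩ | s | t) h <;> simp only [adj] at h
    exact X.loopless.irrefl a h.2⟩

variable {X : SimpleGraph A} {x : Fin k → A} {U : Finset (Vg N A j)}

lemma L2 [DecidableEq A] (hx : Function.Injective x) (hkN : k ≤ N) (hU : U.card < k)
    (y : ZMod N) : ∃ i : Fin k, pt y (x i) ∉ U ∧ sp (y - ((i : ℕ) : ZMod N)) ∉ U := by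
  classical
  by_contra hno
  push Not at hno
  refine absurd (pig (U := U) (fun i : Fin k => if pt y (x i) ∈ U then pt y (x i) else
    sp (y - ((i : ℕ) : ZMod N))) ?_ ?_) (not_le.mpr hU)
  · intro a b hab
    by_cases ha : (pt y (x a) : Vg N A j) ∈ U <;> by_cases hb : (pt y (x b) : Vg N A j) ∈ U <;>
      simp only [ha, hb, if_true, if_false] at hab
    · exact hx (Prod.mk.inj (Sum.inl.inj hab)).2
    · exact absurd hab (by simp)
    · exact absurd hab (by simp)
    · have h1 : (y - ((a : ℕ) : ZMod N)) = y - ((b : ℕ) : ZMod N) := Sum.inl.inj (Sum.inr.inj hab)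
      have h2 : ((a : ℕ) : ZMod N) = ((b : ℕ) : ZMod N) := sub_right_injective h1
      exact Fin.ext (cast_inj' (by omega) (by omega) h2)
  · intro i
    by_cases h : (pt y (x i) : Vg N A j) ∈ U
    · simp only [h, if_true]
    · simp only [h, if_false]
      exact hno i h

lemma L3 (hx : Function.Injective x) (hU : U.card < k) (s : ZMod N) :
    ∃ i : Fin k, pt (s + ((i : ℕ) : ZMod N)) (x i) ∉ U := by
  by_contra hno
  push Not at hno
  refine absurd (pig (U := U) (fun i : Fin k => pt (s + ((i : ℕ) : ZMod N)) (x i)) ?_ hno)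
    (not_le.mpr hU)
  intro a b hab
  exact hx (Prod.mk.inj (Sum.inl.inj hab)).2

lemma L3' (hkN : k ≤ N) (hU : U.card < k) : ∃ a : Fin k, sp ((a : ℕ) : ZMod N) ∉ U := by
  by_contra hno
  push Not at hno
  refine absurd (pig (U := U) (fun i : Fin k => sp ((i : ℕ) : ZMod N)) ?_ hno) (not_le.mpr hU)
  intro a b hab
  have h : ((a : ℕ) : ZMod N) = ((b : ℕ) : ZMod N) := Sum.inl.inj (Sum.inr.inj hab)
  exact Fin.ext (cast_inj' (by omega) (by omega) h)

/-- the `i`-th path from piece `y` to piece `y + 1` -/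
def InP (x : Fin k → A) (y : ZMod N) (i : ℕ) (hi : i + 1 < k) (u : Vg N A j) : Prop :=
  u = pt y (x ⟨i, by omega⟩) ∨ u = sp (y - (i : ZMod N)) ∨ u = pt (y + 1) (x ⟨i + 1, hi⟩)

def Blocked (x : Fin k → A) (U : Finset (Vg N A j)) (y : ZMod N) : Prop :=
  ∀ i : ℕ, ∀ hi : i + 1 < k, ∃ u ∈ U, InP x y i hi u

lemma blocked_all [DecidableEq A] (hx : Function.Injective x) (hk : 2 ≤ k) (hN : 2 * k ≤ N)
    (hU : U.card < k) {y : ZMod N}
    (hb : Blocked x U y) : ∀ u ∈ U, ∃ i, ∃ hi : i + 1 < k, InP x y i hi u := by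
  classical
  have h1 : ∀ i : Fin (k - 1), ∃ u ∈ U, InP x y (i : ℕ) (by omega) u := fun i => hb i (by omega)
  choose g hgU hgP using h1
  have ginj : Function.Injective g := by
    intro a b hab
    have pa := hgP a
    have pb := hgP b
    rcases pa with pa | pa | pa <;> rcases pb with pb | pb | pb
    · have e := pa.symm.trans (hab.trans pb)
      have := congrArg Fin.val (hx (Prod.mk.inj (Sum.inl.inj e)).2)
      exact Fin.ext (by simpa using this)
    · exact absurd (pa.symm.trans (hab.trans pb)) (by simp)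
    · have e := pa.symm.trans (hab.trans pb)
      exact absurd (Prod.mk.inj (Sum.inl.inj e)).1 (ne_succ (by omega) y)
    · exact absurd (pa.symm.trans (hab.trans pb)) (by simp)
    · have e := pa.symm.trans (hab.trans pb)
      have h1 : (y - ((a : ℕ) : ZMod N)) = y - ((b : ℕ) : ZMod N) := Sum.inl.inj (Sum.inr.inj e)
      exact Fin.ext (cast_inj' (by omega) (by omega) (sub_right_injective h1))
    · exact absurd (pa.symm.trans (hab.trans pb)) (by simp)
    · have e := pa.symm.trans (hab.trans pb)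
      exact absurd (Prod.mk.inj (Sum.inl.inj e)).1.symm (ne_succ (by omega) y)
    · exact absurd (pa.symm.trans (hab.trans pb)) (by simp)
    · have e := pa.symm.trans (hab.trans pb)
      have := congrArg Fin.val (hx (Prod.mk.inj (Sum.inl.inj e)).2)
      exact Fin.ext (by simpa using this)
  have him : (univ.image g) = U := by
    refine eq_of_subset_of_card_le ?_ ?_
    · intro u hu
      obtain ⟨i, _, rfl⟩ := mem_image.mp hu
      exact hgU i
    · rw [card_image_of_injective _ ginj, card_univ, Fintype.card_fin]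
      omega
  intro u hu
  rw [← him] at hu
  obtain ⟨i, _, rfl⟩ := mem_image.mp hu
  exact ⟨i, by omega, hgP i⟩

lemma blocked_le [DecidableEq A] (hx : Function.Injective x) (hk : 2 ≤ k) (hN : 2 * k ≤ N)
    (hU : U.card < k) {y z : ZMod N}
    (hy : Blocked x U y) (hz : Blocked x U z) : ∃ a : ℕ, a < k ∧ y = z + (a : ZMod N) := by
  obtain ⟨u, hu, pu⟩ := hy (k - 2) (by omega)
  obtain ⟨i, hi, pz⟩ := blocked_all hx hk hN hU hz u hu
  rcases pu with pu | pu | pu <;> rcases pz with pz | pz | pz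
  · have e := pu.symm.trans pz
    exact ⟨0, by omega, by simpa using (Prod.mk.inj (Sum.inl.inj e)).1⟩
  · exact absurd (pu.symm.trans pz) (by simp)
  · have e := pu.symm.trans pz
    exact ⟨1, by omega, by simpa using (Prod.mk.inj (Sum.inl.inj e)).1⟩
  · exact absurd (pu.symm.trans pz) (by simp)
  · have e := pu.symm.trans pz
    have h1 : (y - ((k - 2 : ℕ) : ZMod N)) = z - (i : ZMod N) := Sum.inl.inj (Sum.inr.inj e)
    refine ⟨k - 2 - i, by omega, ?_⟩
    have h2 : (((k - 2 - i : ℕ)) : ZMod N) = ((k - 2 : ℕ) : ZMod N) - (i : ZMod N) := by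
      rw [Nat.cast_sub (by omega)]
    rw [h2]
    linear_combination h1
  · exact absurd (pu.symm.trans pz) (by simp)
  · have e := pu.symm.trans pz
    have := congrArg Fin.val (hx (Prod.mk.inj (Sum.inl.inj e)).2)
    simp at this
    omega
  · exact absurd (pu.symm.trans pz) (by simp)
  · have e := pu.symm.trans pz
    refine ⟨0, by omega, ?_⟩
    have := (Prod.mk.inj (Sum.inl.inj e)).1
    simpa using this

lemma blocked_one [DecidableEq A] (hx : Function.Injective x) (hk : 2 ≤ k) (hN : 2 * k ≤ N)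
    (hU : U.card < k) {y z : ZMod N} (hy : Blocked x U y) (hz : Blocked x U z) : y = z := by
  obtain ⟨a, ha, h1⟩ := blocked_le hx hk hN hU hy hz
  obtain ⟨b, hb, h2⟩ := blocked_le hx hk hN hU hz hy
  have h3 : ((a + b : ℕ) : ZMod N) = ((0 : ℕ) : ZMod N) := by
    push_cast
    linear_combination -h1 - h2
  have := cast_inj' (N := N) (by omega) (by omega) h3
  have a0 : a = 0 := by omega
  rw [h1, a0]; simp

/-- piece `y` stays connected -/
def Good (X : SimpleGraph A) (x : Fin k → A) (U : Finset (Vg N A j)) (y : ZMod N) : Prop :=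
  ∀ a b, pt y a ∉ U → pt y b ∉ U → Relation.ReflTransGen (Ad (Gr N j X x) U) (pt y a) (pt y b)

lemma link {y : ZMod N} (h : ¬ Blocked x U y) (hg : Good X x U y) (hg' : Good X x U (y + 1))
    {a b : A} (ha : pt y a ∉ U) (hb : pt (y + 1) b ∉ U) :
    Relation.ReflTransGen (Ad (Gr N j X x) U) (pt y a) (pt (y + 1) b) := by
  unfold Blocked at h
  push Not at h
  obtain ⟨l, hl, hP⟩ := h
  have h1 : (pt y (x ⟨l, by omega⟩) : Vg N A j) ∉ U := fun hu => hP _ hu (Or.inl rfl)
  have h2 : (sp (y - (l : ZMod N)) : Vg N A j) ∉ U := fun hu => hP _ hu (Or.inr (Or.inl rfl))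
  have h3 : (pt (y + 1) (x ⟨l + 1, hl⟩) : Vg N A j) ∉ U :=
    fun hu => hP _ hu (Or.inr (Or.inr rfl))
  refine (hg _ _ ha h1).trans ((Relation.ReflTransGen.single ⟨?_, h1, h2⟩).trans
    ((Relation.ReflTransGen.single ⟨?_, h2, h3⟩).trans (hg' _ _ h3 hb)))
  · refine ⟨⟨l, by omega⟩, rfl, ?_⟩
    show y = y - (l : ZMod N) + ((l : ℕ) : ZMod N)
    ring
  · refine ⟨⟨l + 1, hl⟩, rfl, ?_⟩
    show y + 1 = y - (l : ZMod N) + ((l + 1 : ℕ) : ZMod N)
    push_cast
    ring

lemma rtg_symm {a b : Vg N A j} (h : Relation.ReflTransGen (Ad (Gr N j X x) U) a b) :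
    Relation.ReflTransGen (Ad (Gr N j X x) U) b a := by
  induction h with
  | refl => exact Relation.ReflTransGen.refl
  | @tail c d _ hcd ih => exact Relation.ReflTransGen.head hcd.symm ih

/-- a run of `M` pieces -/
lemma chain [DecidableEq A] (hx : Function.Injective x) (hk : 2 ≤ k) (hN : 2 * k ≤ N)
    (hU : U.card < k) (w : ZMod N) (M : ℕ)
    (hg : ∀ m < M, Good X x U (w + (m : ZMod N)))
    (hb : ∀ m, m + 1 < M → ¬ Blocked x U (w + (m : ZMod N))) :
    ∀ m : ℕ, m < M → ∀ a b : A, pt w a ∉ U → pt (w + (m : ZMod N)) b ∉ U →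
      Relation.ReflTransGen (Ad (Gr N j X x) U) (pt w a) (pt (w + (m : ZMod N)) b) := by
  intro m
  induction m with
  | zero =>
    intro hM a b h h'
    have e : w + ((0 : ℕ) : ZMod N) = w := by simp
    have := hg 0 hM
    rw [e] at h' this ⊢
    exact this a b h h'
  | succ m ih =>
    intro hm a b h h'
    obtain ⟨l, hl, _⟩ := L2 (U := U) hx (by omega) hU (w + (m : ZMod N))
    have h1 := ih (by omega) a (x l) h hl
    have hg1 := hg (m + 1) hm
    have e : w + ((m + 1 : ℕ) : ZMod N) = w + (m : ZMod N) + 1 := by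
      push_cast
      ring
    rw [e] at h' hg1 ⊢
    exact h1.trans (link (hb m hm) (hg m (by omega)) hg1 hl h')

lemma lift [Fintype A] [DecidableEq A] (y : ZMod N) (S : Finset A)
    (hS : ∀ a, a ∉ S → (pt y a : Vg N A j) ∉ U) {a b : A}
    (h : Relation.ReflTransGen (Ad X S) a b) :
    Relation.ReflTransGen (Ad (Gr N j X x) U) (pt y a) (pt y b) := by
  induction h with
  | refl => exact Relation.ReflTransGen.refl
  | @tail c d _ hcd ih => exact ih.tail ⟨⟨rfl, hcd.1⟩, hS _ hcd.2.1, hS _ hcd.2.2⟩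

lemma card_Vg [NeZero N] [Fintype A] : Fintype.card (Vg N A j) = N * Fintype.card A + (N + j) := by
  simp [Vg, ZMod.card]

theorem gr_kc [Fintype A] [DecidableEq A] (hx : Function.Injective x) (hk : 2 ≤ k)
    (hN : 2 * k ≤ N) [NeZero N]
    (H1 : ∀ S : Finset A, S.card < k → ∀ a, a ∉ S → ∃ i, x i ∉ S ∧
      Relation.ReflTransGen (Ad X S) a (x i))
    (H2 : ∀ S : Finset A, S.card < k - 1 → ∀ a b, a ∉ S → b ∉ S →
      Relation.ReflTransGen (Ad X S) a b) : KC (Gr N j X x) k := by
  classical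
  have hA : k ≤ Fintype.card A := by
    have := Fintype.card_le_of_injective x hx
    simpa using this
  refine ⟨?_, fun U hU => ?_⟩
  · rw [card_Vg]
    have : 1 * k ≤ N * Fintype.card A := Nat.mul_le_mul (by omega) hA
    omega
  refine (conn_iff _ _).mpr ?_
  -- removed vertices of piece `y`
  set S : ZMod N → Finset A := fun y => univ.filter (fun a => (pt y a : Vg N A j) ∈ U) with hSd
  have hS : ∀ y a, a ∉ S y ↔ (pt y a : Vg N A j) ∉ U := by
    intro y a
    simp [hSd]
  by_cases hcase : ∀ y, (S y).card < k - 1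
  · -- every piece stays connected
    have hgood : ∀ y, Good X x U y := fun y a b ha hb =>
      lift y (S y) (fun c hc => (hS y c).mp hc) (H2 (S y) (hcase y) a b ((hS y a).mpr ha)
        ((hS y b).mpr hb))
    obtain ⟨y0, hy0⟩ : ∃ y0 : ZMod N, ∀ z, z ≠ y0 → ¬ Blocked x U z := by
      by_cases h : ∃ y, Blocked x U y
      · obtain ⟨y, hy⟩ := h
        exact ⟨y, fun z hz hb => hz (blocked_one hx hk hN hU hb hy)⟩
      · push Not at h
        exact ⟨0, fun z _ => h z⟩
    have hch := chain (X := X) hx hk hN hU (y0 + 1) N (fun m _ => hgood _) (fun m hm => by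
      refine hy0 _ fun e => ?_
      have : ((m + 1 : ℕ) : ZMod N) = ((0 : ℕ) : ZMod N) := by
        push_cast
        linear_combination e
      have := cast_inj' (N := N) (by omega) (by omega) this
      omega)
    obtain ⟨i0, hi0, _⟩ := L2 (U := U) hx (by omega) hU (y0 + 1)
    have hcl : ∀ z a, pt z a ∉ U →
        Relation.ReflTransGen (Ad (Gr N j X x) U) (pt (y0 + 1) (x i0)) (pt z a) := by
      intro z a hz
      have he : z = y0 + 1 + (((z - (y0 + 1)).val : ℕ) : ZMod N) := by
        rw [ZMod.natCast_zmod_val]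
        ring
      rw [he] at hz ⊢
      exact hch _ (ZMod.val_lt _) _ _ hi0 hz
    have hsp : ∀ s, sp s ∉ U →
        Relation.ReflTransGen (Ad (Gr N j X x) U) (pt (y0 + 1) (x i0)) (sp s) := by
      intro s hs
      obtain ⟨i, hi⟩ := L3 (U := U) hx hU s
      exact (hcl _ _ hi).tail ⟨⟨i, rfl, rfl⟩, hi, hs⟩
    have hex : ∀ t : Fin j, ex t ∉ U →
        Relation.ReflTransGen (Ad (Gr N j X x) U) (pt (y0 + 1) (x i0)) (ex t) := by
      intro t ht
      obtain ⟨a, ha⟩ := L3' (U := U) (by omega) hU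
      refine (hsp _ ha).tail ⟨?_, ha, ht⟩
      show ((a : ℕ) : ZMod N).val < k
      rw [ZMod.val_natCast, Nat.mod_eq_of_lt (by omega)]
      exact a.2
    have hall : ∀ v, v ∉ U →
        Relation.ReflTransGen (Ad (Gr N j X x) U) (pt (y0 + 1) (x i0)) v := by
      rintro (⟨y, a⟩ | s | t) hv
      · exact hcl y a hv
      · exact hsp s hv
      · exact hex t hv
    exact ⟨⟨_, hi0⟩, fun a b ha hb => (rtg_symm (hall a ha)).trans (hall b hb)⟩
  · -- all removed vertices lie in one piece `ys`
    push Not at hcase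
    obtain ⟨ys, hys⟩ := hcase
    have himg : (S ys).image (fun a => (pt ys a : Vg N A j)) = U := by
      refine eq_of_subset_of_card_le ?_ ?_
      · intro u hu
        obtain ⟨a, ha, rfl⟩ := mem_image.mp hu
        exact (mem_filter.mp ha).2
      · rw [card_image_of_injective]
        · omega
        · intro a b hab
          exact (Prod.mk.inj (Sum.inl.inj hab)).2
    have hUin : ∀ u ∈ U, ∃ a, u = pt ys a := by
      intro u hu
      rw [← himg] at hu
      obtain ⟨a, _, rfl⟩ := mem_image.mp hu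
      exact ⟨a, rfl⟩
    have hpt : ∀ z, z ≠ ys → ∀ a, (pt z a : Vg N A j) ∉ U := by
      intro z hz a hu
      obtain ⟨b, hb⟩ := hUin _ hu
      exact hz (Prod.mk.inj (Sum.inl.inj hb)).1
    have hspU : ∀ s, (sp s : Vg N A j) ∉ U := by
      intro s hu
      obtain ⟨b, hb⟩ := hUin _ hu
      exact absurd hb (by simp)
    have hSys : (S ys).card < k := by
      have : (S ys).card ≤ U.card := by
        conv_rhs => rw [← himg]
        rw [card_image_of_injective]
        intro a b hab
        exact (Prod.mk.inj (Sum.inl.inj hab)).2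
      omega
    have hgood : ∀ y, y ≠ ys → Good X x U y := fun y hy a b _ _ =>
      lift y ∅ (fun c _ => hpt y hy c) (H2 ∅ (by simp; omega) a b (by simp) (by simp))
    have hNe : ∀ m : ℕ, m + 1 < N → ys + 1 + (m : ZMod N) ≠ ys := by
      intro m hm e
      have : ((m + 1 : ℕ) : ZMod N) = ((0 : ℕ) : ZMod N) := by
        push_cast
        linear_combination e
      have := cast_inj' (N := N) (by omega) (by omega) this
      omega
    have hch := chain (X := X) hx hk hN hU (ys + 1) (N - 1) (fun m hm => hgood _ (hNe m (by omega)))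
      (fun m hm hbl => by
        obtain ⟨u, hu, hP⟩ := hbl 0 (by omega)
        rcases hP with h | h | h
        · exact hpt _ (hNe m (by omega)) _ (h ▸ hu)
        · exact hspU _ (h ▸ hu)
        · refine hpt (ys + 1 + (m : ZMod N) + 1) ?_ _ (h ▸ hu)
          have := hNe (m + 1) (by omega)
          push_cast at this
          intro e
          exact this ((add_assoc _ _ _).symm.trans e))
    have hb0 : (pt (ys + 1) (x ⟨0, by omega⟩) : Vg N A j) ∉ U := hpt _ (by
      have := hNe 0 (by omega)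
      simpa using this) _
    have hcl : ∀ z a, z ≠ ys →
        Relation.ReflTransGen (Ad (Gr N j X x) U) (pt (ys + 1) (x ⟨0, by omega⟩)) (pt z a) := by
      intro z a hz
      have he : z = ys + 1 + (((z - (ys + 1)).val : ℕ) : ZMod N) := by
        rw [ZMod.natCast_zmod_val]
        ring
      have hlt : (z - (ys + 1)).val < N - 1 := by
        have h1 : (z - (ys + 1)).val < N := ZMod.val_lt _
        by_contra hge
        have h2 : (z - (ys + 1)).val = N - 1 := by omega
        rw [h2] at he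
        apply hz
        rw [he, Nat.cast_sub (by omega)]
        simp
      have := hpt z hz a
      rw [he] at this ⊢
      exact hch _ hlt _ _ hb0 this
    have hsp : ∀ s,
        Relation.ReflTransGen (Ad (Gr N j X x) U) (pt (ys + 1) (x ⟨0, by omega⟩)) (sp s) := by
      intro s
      by_cases h0 : s = ys
      · have h1 : s + ((1 : ℕ) : ZMod N) ≠ ys := by
          rw [h0]
          intro e
          exact ne_succ (N := N) (by omega) ys (by simpa using e.symm)
        exact (hcl _ (x ⟨1, by omega⟩) h1).tail ⟨⟨⟨1, by omega⟩, rfl, rfl⟩, hpt _ h1 _, hspU _⟩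
      · exact (hcl _ (x ⟨0, by omega⟩) h0).tail
          ⟨⟨⟨0, by omega⟩, rfl, by simp⟩, hpt _ h0 _, hspU _⟩
    have hex : ∀ t : Fin j, ex t ∉ U →
        Relation.ReflTransGen (Ad (Gr N j X x) U) (pt (ys + 1) (x ⟨0, by omega⟩)) (ex t) := by
      intro t ht
      refine (hsp 0).tail ⟨?_, hspU _, ht⟩
      show (0 : ZMod N).val < k
      rw [ZMod.val_zero]
      omega
    have hall : ∀ v, v ∉ U →
        Relation.ReflTransGen (Ad (Gr N j X x) U) (pt (ys + 1) (x ⟨0, by omega⟩)) v := by
      rintro (⟨y, a⟩ | s | t) hv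
      · by_cases hy : y = ys
        · subst hy
          obtain ⟨i, hi, hr⟩ := H1 (S y) hSys a ((hS y a).mpr hv)
          have h1 := lift (x := x) (j := j) y (S y) (fun c hc => (hS y c).mp hc) hr
          have h2 : Ad (Gr N j X x) U (sp (y - ((i : ℕ) : ZMod N))) (pt y (x i)) := by
            refine ⟨⟨i, rfl, ?_⟩, hspU _, (hS y _).mp hi⟩
            show y = y - ((i : ℕ) : ZMod N) + ((i : ℕ) : ZMod N)
            ring
          exact ((hsp (y - ((i : ℕ) : ZMod N))).tail h2).trans (rtg_symm h1)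
        · exact hcl y a hy
      · exact hsp s
      · exact hex t hv
    exact ⟨⟨_, hb0⟩, fun a b ha hb => (rtg_symm (hall a ha)).trans (hall b hb)⟩

end Pool.Agent.H76.RE.Gen
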