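import Pool.Agent.H76.RE.Conn

/-! A `k`-connected graph made of `N` cliques with `k` vertices and `N` further vertices. -/

namespace Pool.Agent.H76.RE
open Finset

abbrev Vx (N k j : ℕ) := (ZMod N × Fin k) ⊕ (ZMod N ⊕ Fin j)

variable {N k j : ℕ}

abbrev cl (y : ZMod N) (i : Fin k) : Vx N k j := Sum.inl (y, i)
abbrev sp (s : ZMod N) : Vx N k j := Sum.inr (Sum.inl s)
abbrev ex (t : Fin j) : Vx N k j := Sum.inr (Sum.inr t)

def adj : Vx N k j → Vx N k j → Prop
  | Sum.inl (y, i), Sum.inl (y', i') => y = y' ∧ i ≠ i'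
  | Sum.inl (y, i), Sum.inr (Sum.inl s) => y = s + ((i : ℕ) : ZMod N)
  | Sum.inr (Sum.inl s), Sum.inl (y, i) => y = s + ((i : ℕ) : ZMod N)
  | Sum.inr (Sum.inl s), Sum.inr (Sum.inr _) => s.val < k
  | Sum.inr (Sum.inr _), Sum.inr (Sum.inl s) => s.val < k
  | _, _ => False

def Gr (N k j : ℕ) : SimpleGraph (Vx N k j) where
  Adj := adj
  symm := ⟨by
    rintro (⟨y, i⟩ | s | t) (⟨y', i'⟩ | s' | t') h <;> simp only [adj] at h ⊢ <;>
      first
        | exact h
        | exact ⟨h.1.symm, fun e => h.2 e.symm⟩⟩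
  loopless := ⟨by
    rintro (⟨y, i⟩ | s | t) h <;> simp only [adj] at h
    exact h.2 rfl⟩

lemma cast_inj' {a b : ℕ} (ha : a < N) (hb : b < N) (h : (a : ZMod N) = b) : a = b := by
  have := (ZMod.natCast_eq_natCast_iff' a b N).mp h
  rwa [Nat.mod_eq_of_lt ha, Nat.mod_eq_of_lt hb] at this

lemma pig {m : ℕ} {α : Type} {U : Finset α} (g : Fin m → α) (hg : Function.Injective g)
    (h : ∀ i, g i ∈ U) : m ≤ U.card := by
  classical
  have := card_le_card_of_injOn (s := (univ : Finset (Fin m))) (t := U) g (fun i _ => h i) hg.injOn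
  simpa using this

variable {U : Finset (Vx N k j)}

lemma L2 (hkN : k ≤ N) (hU : U.card < k) (y : ZMod N) :
    ∃ i : Fin k, cl y i ∉ U ∧ sp (y - ((i : ℕ) : ZMod N)) ∉ U := by
  classical
  by_contra hno
  push Not at hno
  refine absurd (pig (U := U) (fun i : Fin k => if cl y i ∈ U then cl y i else
    sp (y - ((i : ℕ) : ZMod N))) ?_ ?_) (not_le.mpr hU)
  · intro a b hab
    by_cases ha : (cl y a : Vx N k j) ∈ U <;> by_cases hb : (cl y b : Vx N k j) ∈ U <;>
      simp only [ha, hb, if_true, if_false] at hab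
    · exact (Prod.mk.inj (Sum.inl.inj hab)).2
    · exact absurd hab (by simp)
    · exact absurd hab (by simp)
    · have h1 : (y - ((a : ℕ) : ZMod N)) = y - ((b : ℕ) : ZMod N) := Sum.inl.inj (Sum.inr.inj hab)
      have h2 : ((a : ℕ) : ZMod N) = ((b : ℕ) : ZMod N) := sub_right_injective h1
      exact Fin.ext (cast_inj' (by omega) (by omega) h2)
  · intro i
    by_cases h : (cl y i : Vx N k j) ∈ U
    · simp only [h, if_true]
    · simp only [h, if_false]
      exact hno i h

lemma L3 (hU : U.card < k) (s : ZMod N) : ∃ i : Fin k, cl (s + ((i : ℕ) : ZMod N)) i ∉ U := by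
  by_contra hno
  push Not at hno
  refine absurd (pig (U := U) (fun i : Fin k => cl (s + ((i : ℕ) : ZMod N)) i) ?_ hno)
    (not_le.mpr hU)
  intro a b hab
  exact (Prod.mk.inj (Sum.inl.inj hab)).2

lemma L3' (hkN : k ≤ N) (hU : U.card < k) : ∃ a : Fin k, sp ((a : ℕ) : ZMod N) ∉ U := by
  by_contra hno
  push Not at hno
  refine absurd (pig (U := U) (fun i : Fin k => sp ((i : ℕ) : ZMod N)) ?_ hno) (not_le.mpr hU)
  intro a b hab
  have h : ((a : ℕ) : ZMod N) = ((b : ℕ) : ZMod N) := Sum.inl.inj (Sum.inr.inj hab)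
  exact Fin.ext (cast_inj' (by omega) (by omega) h)

/-- the `i`-th path from clique `y` to clique `y + 1` -/
def InP (y : ZMod N) (i : ℕ) (hi : i + 1 < k) (u : Vx N k j) : Prop :=
  u = cl y ⟨i, by omega⟩ ∨ u = sp (y - (i : ZMod N)) ∨ u = cl (y + 1) ⟨i + 1, hi⟩

def Blocked (U : Finset (Vx N k j)) (y : ZMod N) : Prop :=
  ∀ i : ℕ, ∀ hi : i + 1 < k, ∃ u ∈ U, InP y i hi u

lemma one_ne (hN : 2 ≤ N) : (1 : ZMod N) ≠ 0 := by
  intro h
  have := cast_inj' (N := N) (a := 1) (b := 0) (by omega) (by omega) (by simpa using h)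
  omega

lemma ne_succ (hN : 2 ≤ N) (w : ZMod N) : w ≠ w + 1 := by
  intro h
  refine one_ne hN ?_
  linear_combination -h

lemma blocked_all (hk : 2 ≤ k) (hN : 2 * k ≤ N) (hU : U.card < k) {y : ZMod N}
    (hb : Blocked U y) : ∀ u ∈ U, ∃ i, ∃ hi : i + 1 < k, InP y i hi u := by
  classical
  have h1 : ∀ i : Fin (k - 1), ∃ u ∈ U, InP y (i : ℕ) (by omega) u := fun i => hb i (by omega)
  choose g hgU hgP using h1
  have ginj : Function.Injective g := by
    intro a b hab
    have pa := hgP a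
    have pb := hgP b
    rcases pa with pa | pa | pa <;> rcases pb with pb | pb | pb
    · have e := pa.symm.trans (hab.trans pb)
      have := congrArg Fin.val (Prod.mk.inj (Sum.inl.inj e)).2
      exact Fin.ext (by simpa using this)
    · exact absurd (pa.symm.trans (hab.trans pb)) (by simp)
    · have e := pa.symm.trans (hab.trans pb)
      exact absurd (Prod.mk.inj (Sum.inl.inj e)).1 (ne_succ (by omega) y)
    · exact absurd (pa.symm.trans (hab.trans pb)) (by simp)
    · have e := pa.symm.trans (hab.trans pb)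
      have h1 : (y - ((a : ℕ) : ZMod N)) = y - ((b : ℕ) : ZMod N) := Sum.inl.inj (Sum.inr.inj e)
      exact Fin.ext (cast_inj' (by omega) (by omega) (sub_right_injective h1))
    · exact absurd (pa.symm.trans (hab.trans pb)) (by simp)
    · have e := pa.symm.trans (hab.trans pb)
      exact absurd (Prod.mk.inj (Sum.inl.inj e)).1.symm (ne_succ (by omega) y)
    · exact absurd (pa.symm.trans (hab.trans pb)) (by simp)
    · have e := pa.symm.trans (hab.trans pb)
      have := congrArg Fin.val (Prod.mk.inj (Sum.inl.inj e)).2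
      exact Fin.ext (by simpa using this)
  have him : (univ.image g) = U := by
    refine eq_of_subset_of_card_le ?_ ?_
    · intro u hu
      obtain ⟨i, _, rfl⟩ := mem_image.mp hu
      exact hgU i
    · rw [card_image_of_injective _ ginj, card_univ, Fintype.card_fin]
      omega
  intro u hu
  rw [← him] at hu
  obtain ⟨i, _, rfl⟩ := mem_image.mp hu
  exact ⟨i, by omega, hgP i⟩

lemma blocked_le (hk : 2 ≤ k) (hN : 2 * k ≤ N) (hU : U.card < k) {y z : ZMod N}
    (hy : Blocked U y) (hz : Blocked U z) : ∃ a : ℕ, a < k ∧ y = z + (a : ZMod N) := by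
  obtain ⟨u, hu, pu⟩ := hy (k - 2) (by omega)
  obtain ⟨i, hi, pz⟩ := blocked_all hk hN hU hz u hu
  rcases pu with pu | pu | pu <;> rcases pz with pz | pz | pz
  · have e := pu.symm.trans pz
    exact ⟨0, by omega, by simpa using (Prod.mk.inj (Sum.inl.inj e)).1⟩
  · exact absurd (pu.symm.trans pz) (by simp)
  · have e := pu.symm.trans pz
    exact ⟨1, by omega, by simpa using (Prod.mk.inj (Sum.inl.inj e)).1⟩
  · exact absurd (pu.symm.trans pz) (by simp)
  · have e := pu.symm.trans pz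
    have h1 : (y - ((k - 2 : ℕ) : ZMod N)) = z - (i : ZMod N) := Sum.inl.inj (Sum.inr.inj e)
    refine ⟨k - 2 - i, by omega, ?_⟩
    have h2 : (((k - 2 - i : ℕ)) : ZMod N) = ((k - 2 : ℕ) : ZMod N) - (i : ZMod N) := by
      rw [Nat.cast_sub (by omega)]
    rw [h2]
    linear_combination h1
  · exact absurd (pu.symm.trans pz) (by simp)
  · have e := pu.symm.trans pz
    have := congrArg Fin.val (Prod.mk.inj (Sum.inl.inj e)).2
    simp at this
    omega
  · exact absurd (pu.symm.trans pz) (by simp)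
  · have e := pu.symm.trans pz
    refine ⟨0, by omega, ?_⟩
    have := (Prod.mk.inj (Sum.inl.inj e)).1
    simpa using this

lemma blocked_one (hk : 2 ≤ k) (hN : 2 * k ≤ N) (hU : U.card < k) {y z : ZMod N}
    (hy : Blocked U y) (hz : Blocked U z) : y = z := by
  obtain ⟨a, ha, h1⟩ := blocked_le hk hN hU hy hz
  obtain ⟨b, hb, h2⟩ := blocked_le hk hN hU hz hy
  have h3 : ((a + b : ℕ) : ZMod N) = ((0 : ℕ) : ZMod N) := by
    push_cast
    linear_combination -h1 - h2
  have := cast_inj' (N := N) (by omega) (by omega) h3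
  have a0 : a = 0 := by omega
  rw [h1, a0]; simp

/-- a path step inside a clique, or none -/
lemma clique_path {y : ZMod N} {i i' : Fin k} (h : cl y i ∉ U) (h' : cl y i' ∉ U) :
    Relation.ReflTransGen (Ad (Gr N k j) U) (cl y i) (cl y i') := by
  by_cases e : i = i'
  · rw [e]
  · exact Relation.ReflTransGen.single ⟨⟨rfl, e⟩, h, h'⟩

/-- an unblocked link -/
lemma link {y : ZMod N} (h : ¬ Blocked U y) {i i' : Fin k} (hi : cl y i ∉ U)
    (hi' : cl (y + 1) i' ∉ U) :
    Relation.ReflTransGen (Ad (Gr N k j) U) (cl y i) (cl (y + 1) i') := by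
  unfold Blocked at h
  push Not at h
  obtain ⟨l, hl, hP⟩ := h
  have h1 : (cl y ⟨l, by omega⟩ : Vx N k j) ∉ U := fun hu => hP _ hu (Or.inl rfl)
  have h2 : (sp (y - (l : ZMod N)) : Vx N k j) ∉ U := fun hu => hP _ hu (Or.inr (Or.inl rfl))
  have h3 : (cl (y + 1) ⟨l + 1, hl⟩ : Vx N k j) ∉ U := fun hu => hP _ hu (Or.inr (Or.inr rfl))
  refine (clique_path hi h1).trans ((Relation.ReflTransGen.single ⟨?_, h1, h2⟩).trans
    ((Relation.ReflTransGen.single ⟨?_, h2, h3⟩).trans (clique_path h3 hi')))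
  · show y = y - (l : ZMod N) + ((l : ℕ) : ZMod N)
    ring
  · show y + 1 = y - (l : ZMod N) + ((l + 1 : ℕ) : ZMod N)
    push_cast
    ring

lemma rtg_symm {a b : Vx N k j} (h : Relation.ReflTransGen (Ad (Gr N k j) U) a b) :
    Relation.ReflTransGen (Ad (Gr N k j) U) b a := by
  induction h with
  | refl => exact Relation.ReflTransGen.refl
  | @tail c d _ hcd ih => exact Relation.ReflTransGen.head hcd.symm ih

/-- all cliques are joined outside `U` -/
lemma chain (hk : 2 ≤ k) (hN : 2 * k ≤ N) (hU : U.card < k) [NeZero N] :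
    ∃ y0 : ZMod N, ∀ z : ZMod N, ∀ i i' : Fin k, cl (y0 + 1) i ∉ U → cl z i' ∉ U →
      Relation.ReflTransGen (Ad (Gr N k j) U) (cl (y0 + 1) i) (cl z i') := by
  -- choose `y0` to be the blocked link, if any
  obtain ⟨y0, hy0⟩ : ∃ y0 : ZMod N, ∀ z, z ≠ y0 → ¬ Blocked U z := by
    by_cases h : ∃ y, Blocked U y
    · obtain ⟨y, hy⟩ := h
      exact ⟨y, fun z hz hb => hz (blocked_one hk hN hU hb hy)⟩
    · push Not at h
      exact ⟨0, fun z _ => h z⟩
  refine ⟨y0, ?_⟩
  have key : ∀ m : ℕ, m < N → ∀ i i' : Fin k, cl (y0 + 1) i ∉ U →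
      cl (y0 + 1 + (m : ZMod N)) i' ∉ U →
      Relation.ReflTransGen (Ad (Gr N k j) U) (cl (y0 + 1) i) (cl (y0 + 1 + (m : ZMod N)) i') := by
    intro m
    induction m with
    | zero =>
      intro _ i i' h h'
      have e : y0 + 1 + ((0 : ℕ) : ZMod N) = y0 + 1 := by simp
      rw [e] at h' ⊢
      exact clique_path h h'
    | succ m ih =>
      intro hm i i' h h'
      obtain ⟨l, hl, _⟩ := L2 (U := U) (by omega) hU (y0 + 1 + (m : ZMod N))
      have h1 := ih (by omega) i l h hl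
      have hnb : ¬ Blocked U (y0 + 1 + (m : ZMod N)) := by
        refine hy0 _ fun e => ?_
        have : ((m + 1 : ℕ) : ZMod N) = ((0 : ℕ) : ZMod N) := by
          push_cast
          linear_combination e
        have := cast_inj' (N := N) (by omega) (by omega) this
        omega
      have e : y0 + 1 + ((m + 1 : ℕ) : ZMod N) = y0 + 1 + (m : ZMod N) + 1 := by
        push_cast
        ring
      rw [e] at h' ⊢
      exact h1.trans (link hnb hl h')
  intro z i i' h h'
  have hz : z = y0 + 1 + (((z - (y0 + 1)).val : ℕ) : ZMod N) := by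
    rw [ZMod.natCast_zmod_val]
    ring
  rw [hz] at h' ⊢
  exact key _ (ZMod.val_lt _) i i' h h'

lemma card_Vx [NeZero N] : Fintype.card (Vx N k j) = N * k + (N + j) := by
  simp [Vx, ZMod.card]

theorem gr_kc (hk : 2 ≤ k) (hN : 2 * k ≤ N) [NeZero N] : KC (Gr N k j) k := by
  classical
  refine ⟨?_, fun U hU => ?_⟩
  · rw [card_Vx]
    nlinarith
  refine (conn_iff _ _).mpr ?_
  obtain ⟨y0, hy0⟩ := chain (j := j) hk hN hU
  obtain ⟨i0, hi0, _⟩ := L2 (U := U) (by omega) hU (y0 + 1)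
  -- every vertex reaches the base
  have hcl : ∀ z i, cl z i ∉ U →
      Relation.ReflTransGen (Ad (Gr N k j) U) (cl (y0 + 1) i0) (cl z i) :=
    fun z i hz => hy0 z i0 i hi0 hz
  have hsp : ∀ s, sp s ∉ U →
      Relation.ReflTransGen (Ad (Gr N k j) U) (cl (y0 + 1) i0) (sp s) := by
    intro s hs
    obtain ⟨i, hi⟩ := L3 (U := U) hU s
    refine (hcl _ _ hi).tail ⟨?_, hi, hs⟩
    show s + ((i : ℕ) : ZMod N) = s + ((i : ℕ) : ZMod N)
    rfl
  have hex : ∀ t : Fin j, ex t ∉ U →
      Relation.ReflTransGen (Ad (Gr N k j) U) (cl (y0 + 1) i0) (ex t) := by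
    intro t ht
    obtain ⟨a, ha⟩ := L3' (U := U) (by omega) hU
    refine (hsp _ ha).tail ⟨?_, ha, ht⟩
    show ((a : ℕ) : ZMod N).val < k
    rw [ZMod.val_natCast, Nat.mod_eq_of_lt (by omega)]
    exact a.2
  have hall : ∀ v, v ∉ U →
      Relation.ReflTransGen (Ad (Gr N k j) U) (cl (y0 + 1) i0) v := by
    rintro (⟨y, i⟩ | s | t) hv
    · exact hcl y i hv
    · exact hsp s hv
    · exact hex t hv
  exact ⟨⟨_, hi0⟩, fun a b ha hb => (rtg_symm (hall a ha)).trans (hall b hb)⟩

end Pool.Agent.H76.RE
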