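import Mathlib

/-! A finite fact on the removed edges at a piece. -/

namespace Pool.Agent.H76

/-- the Petersen graph has no perfect matching meeting every pentagon cut in at most three edges -/
lemma num (a0 a1 a2 a3 a4 a5 a6 a7 a8 a9 a10 a11 a12 a13 a14 : ℕ)
    (c0 : a0 + a4 + a5 ≤ 1)
    (c1 : a0 + a1 + a6 ≤ 1)
    (c2 : a1 + a2 + a7 ≤ 1)
    (c3 : a2 + a3 + a8 ≤ 1)
    (c4 : a3 + a4 + a12 ≤ 1)
    (c5 : a5 + a9 + a11 ≤ 1)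
    (c6 : a6 + a10 + a14 ≤ 1)
    (c7 : a7 + a9 + a13 ≤ 1)
    (c8 : a8 + a10 + a11 ≤ 1)
    (c9 : a12 + a13 + a14 ≤ 1)
    (c10 : a5 + a6 + a7 + a8 + a12 ≤ 3)
    (c11 : a2 + a4 + a6 + a11 + a13 ≤ 3)
    (c12 : a1 + a4 + a8 + a9 + a14 ≤ 3)
    (c13 : a0 + a2 + a9 + a10 + a12 ≤ 3)
    (c14 : a0 + a3 + a7 + a11 + a14 ≤ 3)
    (c15 : a1 + a3 + a5 + a10 + a13 ≤ 3)
    : a0 + a1 + a2 + a3 + a4 + a5 + a6 + a7 + a8 + a9 + a10 + a11 + a12 + a13 + a14 ≤ 4 := by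
  have w12 : a12 = 0 ∨ a12 = 1 := by omega
  have w13 : a13 = 0 ∨ a13 = 1 := by omega
  have w0 : a0 = 0 ∨ a0 = 1 := by omega
  have w5 : a5 = 0 ∨ a5 = 1 := by omega
  have w8 : a8 = 0 ∨ a8 = 1 := by omega
  rcases w12 with w12 | w12 <;> rcases w13 with w13 | w13 <;> rcases w0 with w0 | w0 <;>
    rcases w5 with w5 | w5 <;> rcases w8 with w8 | w8 <;> omega

end Pool.Agent.H76
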