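import Pool.Agent.H76.RE.Bound

/-! The graph for odd `k = 2h + 1`: pieces `K_{k+1}` minus a perfect matching. -/

namespace Pool.Agent.H76.Odd
open Finset
open Pool.Agent.H76.RE (KC sep Ad vertex_one pig conn_iff)

/-- piece vertices, special vertices, double vertices, hubs, extra vertices -/
abbrev Vo (N h j : ℕ) := ((Fin N × Fin h × Fin (2 * h + 1)) × Fin (2 * h + 2)) ⊕
  ((Fin N × Fin h × Fin (2 * h)) ⊕ ((Fin N × Fin (2 * h + 1)) ⊕ (Fin (2 * h + 1) ⊕ Fin j)))

variable {N h j : ℕ}

abbrev P (q : Fin N × Fin h × Fin (2 * h + 1)) (v : Fin (2 * h + 2)) : Vo N h j := Sum.inl (q, v)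
abbrev S (z : Fin N) (g : Fin h) (a : Fin (2 * h)) : Vo N h j := Sum.inr (Sum.inl (z, g, a))
abbrev C (z : Fin N) (b : Fin (2 * h + 1)) : Vo N h j := Sum.inr (Sum.inr (Sum.inl (z, b)))
abbrev H (b : Fin (2 * h + 1)) : Vo N h j := Sum.inr (Sum.inr (Sum.inr (Sum.inl b)))
abbrev E (t : Fin j) : Vo N h j := Sum.inr (Sum.inr (Sum.inr (Sum.inr t)))

def adj : Vo N h j → Vo N h j → Prop
  | Sum.inl (q, v), Sum.inl (q', w) => q = q' ∧ v.val / 2 ≠ w.val / 2
  | Sum.inl ((z, g, _), v), Sum.inr (Sum.inl (z', g', a)) => z = z' ∧ g = g' ∧ v.val = a.val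
  | Sum.inr (Sum.inl (z', g', a)), Sum.inl ((z, g, _), v) => z = z' ∧ g = g' ∧ v.val = a.val
  | Sum.inl ((z, _, b), v), Sum.inr (Sum.inr (Sum.inl (z', b'))) => z = z' ∧ b = b' ∧ v.val / 2 = h
  | Sum.inr (Sum.inr (Sum.inl (z', b'))), Sum.inl ((z, _, b), v) => z = z' ∧ b = b' ∧ v.val / 2 = h
  | Sum.inr (Sum.inr (Sum.inl (_, b))), Sum.inr (Sum.inr (Sum.inr (Sum.inl b'))) => b = b'
  | Sum.inr (Sum.inr (Sum.inr (Sum.inl b'))), Sum.inr (Sum.inr (Sum.inl (_, b))) => b = b'
  | Sum.inr (Sum.inr (Sum.inr (Sum.inl _))), Sum.inr (Sum.inr (Sum.inr (Sum.inr _))) => True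
  | Sum.inr (Sum.inr (Sum.inr (Sum.inr _))), Sum.inr (Sum.inr (Sum.inr (Sum.inl _))) => True
  | _, _ => False

def Go (N h j : ℕ) : SimpleGraph (Vo N h j) where
  Adj := adj
  symm := ⟨by
    rintro (⟨⟨z, g, b⟩, v⟩ | ⟨z, g, a⟩ | ⟨z, b⟩ | b | t) (⟨⟨z', g', b'⟩, v'⟩ | ⟨z', g', a'⟩ | ⟨z', b'⟩ | b' | t') hh <;>
      simp only [adj] at hh ⊢ <;>
      first
        | exact hh
        | exact ⟨hh.1.symm, fun e => hh.2 e.symm⟩⟩
  loopless := ⟨by
    rintro (⟨⟨z, g, b⟩, v⟩ | ⟨z, g, a⟩ | ⟨z, b⟩ | b | t) hh <;> simp only [adj] at hh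
    exact hh.2 rfl⟩

lemma card_Vo : Fintype.card (Vo N h j) =
    N * (h * (2 * h + 1)) * (2 * h + 2) + (N * (h * (2 * h)) + (N * (2 * h + 1) + (2 * h + 1 + j))) := by
  simp [Vo]

variable {U : Finset (Vo N h j)}

/-- the first top index and the second top index -/
abbrev t0 : Fin (2 * h + 2) := ⟨2 * h, by omega⟩
abbrev t1 : Fin (2 * h + 2) := ⟨2 * h + 1, by omega⟩
abbrev lo (a : Fin (2 * h)) : Fin (2 * h + 2) := ⟨a.val, by omega⟩

lemma aPP (q : Fin N × Fin h × Fin (2 * h + 1)) {v w : Fin (2 * h + 2)}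
    (hv : v.val / 2 ≠ w.val / 2) : (Go N h j).Adj (P q v) (P q w) := ⟨rfl, hv⟩

lemma aPS (z : Fin N) (g : Fin h) (b : Fin (2 * h + 1)) (a : Fin (2 * h)) :
    (Go N h j).Adj (P (z, g, b) (lo a)) (S z g a) := ⟨rfl, rfl, rfl⟩

lemma aPC (z : Fin N) (g : Fin h) (b : Fin (2 * h + 1)) (v : Fin (2 * h + 2)) (hv : v.val / 2 = h) :
    (Go N h j).Adj (P (z, g, b) v) (C z b) := ⟨rfl, rfl, hv⟩

lemma aCH (z : Fin N) (b : Fin (2 * h + 1)) : (Go N h j).Adj (C z b) (H b) := rfl

lemma aHE (b : Fin (2 * h + 1)) (t : Fin j) : (Go N h j).Adj (H b) (E t) := trivial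

lemma column (hU : U.card < 2 * h + 1) (z : Fin N) (g : Fin h) :
    ∃ i : Fin (2 * h + 1), (∀ v, P (z, g, i) v ∉ U) ∧ C z i ∉ U ∧ H i ∉ U := by
  classical
  by_contra hno
  have h1 : ∀ i : Fin (2 * h + 1), ∃ u ∈ U, (∃ v, u = P (z, g, i) v) ∨ u = C z i ∨ u = H i := by
    intro i
    by_contra hi
    push Not at hi
    apply hno
    refine ⟨i, fun v hv => (hi _ hv).1 v rfl, fun hv => (hi _ hv).2.1 rfl,
      fun hv => (hi _ hv).2.2 rfl⟩
  choose u hu hu2 using h1
  refine absurd (pig (U := U) u ?_ hu) (not_le.mpr hU)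
  intro a b hab
  rcases hu2 a with ⟨v, ha⟩ | ha | ha <;> rcases hu2 b with ⟨w, hb⟩ | hb | hb <;>
    rw [hab, hb] at ha <;> simp at ha
  · exact ha.1.symm
  · exact ha.symm
  · exact ha.symm

/-- all the `k` vertices `u i` in `U` is impossible -/
lemma pk {α : Type} {U : Finset α} (hU : U.card < 2 * h + 1) (u : Fin (2 * h) → α)
    (hu : ∀ i, u i ∈ U) (hinj : Function.Injective u) (w : α) (hw : w ∈ U) (hne : ∀ i, u i ≠ w) :
    False := by
  classical
  have h1 : (insert w (univ.image u)).card = 2 * h + 1 := by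
    rw [card_insert_of_notMem, card_image_of_injective _ hinj, card_univ, Fintype.card_fin]
    intro hm
    obtain ⟨i, _, hi⟩ := mem_image.mp hm
    exact hne i hi
  have h2 : insert w (univ.image u) ⊆ U := by
    intro x hx
    rcases mem_insert.mp hx with rfl | hx
    · exact hw
    · obtain ⟨i, _, rfl⟩ := mem_image.mp hx
      exact hu i
  have := card_le_card h2
  omega

lemma rtg_symm {a b : Vo N h j} (hab : Relation.ReflTransGen (Ad (Go N h j) U) a b) :
    Relation.ReflTransGen (Ad (Go N h j) U) b a := by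
  induction hab with
  | refl => exact Relation.ReflTransGen.refl
  | @tail c d _ hcd ih => exact Relation.ReflTransGen.head hcd.symm ih

theorem go_kc (hh : 1 ≤ h) (hN : 2 * h + 1 ≤ N) : KC (Go N h j) (2 * h + 1) := by
  classical
  refine ⟨?_, fun U hU => ?_⟩
  · rw [card_Vo]
    have : 1 * 1 ≤ N * (h * (2 * h + 1)) := Nat.mul_le_mul (by omega) (by nlinarith)
    have : 1 * (2 * h + 2) ≤ N * (h * (2 * h + 1)) * (2 * h + 2) :=
      Nat.mul_le_mul_right _ (by omega)
    omega
  refine (conn_iff _ _).mpr ?_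
  -- an untouched block
  obtain ⟨z0, hz0⟩ : ∃ z0 : Fin N, (∀ g b v, P (z0, g, b) v ∉ U) ∧ (∀ g a, S z0 g a ∉ U) ∧
      (∀ b, C z0 b ∉ U) := by
    by_contra hno
    have h1 : ∀ z : Fin N, ∃ u ∈ U, (∃ g b v, u = P (z, g, b) v) ∨ (∃ g a, u = S z g a) ∨
        ∃ b, u = C z b := by
      intro z
      by_contra hz
      push Not at hz
      exact hno ⟨z, fun g b v hv => (hz _ hv).1 g b v rfl, fun g a hv => (hz _ hv).2.1 g a rfl,
        fun b hv => (hz _ hv).2.2 b rfl⟩
    choose u hu hu2 using h1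
    refine absurd (pig (U := U) u ?_ hu) (not_le.mpr (by omega))
    intro a b hab
    rcases hu2 a with ⟨g, c, v, ha⟩ | ⟨g, c, ha⟩ | ⟨c, ha⟩ <;>
      rcases hu2 b with ⟨g', c', v', hb⟩ | ⟨g', c', hb⟩ | ⟨c', hb⟩ <;>
      rw [hab, hb] at ha <;> simp at ha
    · exact ha.1.1.symm
    · exact ha.1.symm
    · exact ha.1.symm
  obtain ⟨hP0, hS0, hC0⟩ := hz0
  set g0 : Fin h := ⟨0, by omega⟩ with hg0
  set b0 : Fin (2 * h + 1) := ⟨0, by omega⟩ with hb0
  set a0 : Fin (2 * h) := ⟨0, by omega⟩ with ha0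
  set base : Vo N h j := C z0 b0 with hbase
  set Rb : Vo N h j → Prop := fun v => Relation.ReflTransGen (Ad (Go N h j) U) base v with hRb
  have step : ∀ v w, Rb v → (Go N h j).Adj v w → v ∉ U → w ∉ U → Rb w :=
    fun v w hv ha h1 h2 => Relation.ReflTransGen.tail hv ⟨ha, h1, h2⟩
  have h0h : ¬ (2 * h) / 2 = 0 / 2 := by omega
  -- hubs
  have hH : ∀ b, H b ∉ U → Rb (H b) := by
    intro b hb
    have r0 : Rb (C z0 b0) := Relation.ReflTransGen.refl
    have r1 : Rb (P (z0, g0, b0) t0) :=
      step _ _ r0 (aPC z0 g0 b0 t0 (by simp)).symm (hC0 _) (hP0 _ _ _)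
    have r2 : Rb (P (z0, g0, b0) (lo a0)) := step _ _ r1 (aPP _ (by simp [ha0]; omega)) (hP0 _ _ _) (hP0 _ _ _)
    have r3 : Rb (S z0 g0 a0) := step _ _ r2 (aPS _ _ _ _) (hP0 _ _ _) (hS0 _ _)
    have r4 : Rb (P (z0, g0, b) (lo a0)) := step _ _ r3 (aPS _ _ _ _).symm (hS0 _ _) (hP0 _ _ _)
    have r5 : Rb (P (z0, g0, b) t0) := step _ _ r4 (aPP _ (by simp [ha0]; omega)) (hP0 _ _ _) (hP0 _ _ _)
    have r6 : Rb (C z0 b) := step _ _ r5 (aPC z0 g0 b t0 (by simp)) (hP0 _ _ _) (hC0 _)
    exact step _ _ r6 (aCH _ _) (hC0 _) hb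
  -- special vertices
  have hS : ∀ z g a, S z g a ∉ U → Rb (S z g a) := by
    intro z g a hs
    obtain ⟨i, hPi, hCi, hHi⟩ := column hU z g
    have r1 := step _ _ (hH i hHi) (aCH z i).symm hHi hCi
    have r2 := step _ _ r1 (aPC z g i t0 (by simp)).symm hCi (hPi _)
    have r3 := step _ _ r2 (aPP (z, g, i) (v := t0) (w := lo a) (by simp; omega)) (hPi _) (hPi _)
    exact step _ _ r3 (aPS z g i a) (hPi _) hs
  -- a special vertex with its piece neighbour alive
  have hL : ∀ z g b a, P (z, g, b) (lo a) ∉ U → S z g a ∉ U → Rb (P (z, g, b) (lo a)) :=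
    fun z g b a h1 h2 => step _ _ (hS z g a h2) (aPS z g b a).symm h2 h1
  -- top vertices, if one of the pairs is alive
  have hT : ∀ z g b (v : Fin (2 * h + 2)), v.val / 2 = h → P (z, g, b) v ∉ U → ∀ a : Fin (2 * h),
      P (z, g, b) (lo a) ∉ U → S z g a ∉ U → Rb (P (z, g, b) v) :=
    fun z g b v hv h1 a h2 h3 => step _ _ (hL z g b a h2 h3)
      (aPP (z, g, b) (v := lo a) (w := v) (by rw [hv]; simp; omega)) h2 h1
  -- all pairs hit
  have hpair : ∀ z g b, (∀ a : Fin (2 * h), P (z, g, b) (lo a) ∈ U ∨ S z g a ∈ U) →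
      ∀ w ∈ U, (∀ a, P (z, g, b) (lo a) ≠ w) → (∀ a, S z g a ≠ w) → False := by
    intro z g b hall w hw h1 h2
    refine pk hU (fun a => if P (z, g, b) (lo a) ∈ U then P (z, g, b) (lo a) else S z g a) ?_ ?_ w hw ?_
    · intro a
      by_cases hc : (P (z, g, b) (lo a) : Vo N h j) ∈ U
      · simp only [hc, if_true]
      · simp only [hc, if_false]
        exact (hall a).resolve_left hc
    · intro a c hac
      by_cases hc : (P (z, g, b) (lo a) : Vo N h j) ∈ U <;>
        by_cases hd : (P (z, g, b) (lo c) : Vo N h j) ∈ U <;>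
        simp only [hc, hd, if_true, if_false] at hac
      · have := congrArg Fin.val (Prod.mk.inj (Sum.inl.inj hac)).2
        exact Fin.ext this
      · exact absurd hac (by simp)
      · exact absurd hac (by simp)
      · exact (Prod.mk.inj (Prod.mk.inj (Sum.inl.inj (Sum.inr.inj hac))).2).2
    · intro a
      by_cases hc : (P (z, g, b) (lo a) : Vo N h j) ∈ U
      · simp only [hc, if_true]
        exact h1 a
      · simp only [hc, if_false]
        exact h2 a
  -- double vertices
  have hC : ∀ z b, C z b ∉ U → Rb (C z b) := by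
    intro z b hc
    by_cases hHb : H b ∈ U
    · -- an alive top neighbour
      obtain ⟨g, v, hv, hgv⟩ : ∃ g : Fin h, ∃ v : Fin (2 * h + 2), v.val / 2 = h ∧
          P (z, g, b) v ∉ U := by
        by_contra hno
        push Not at hno
        refine pk hU (fun i : Fin (2 * h) => P (z, ⟨i.val / 2, by omega⟩, b)
          (⟨2 * h + i.val % 2, by omega⟩ : Fin (2 * h + 2))) ?_ ?_ (H b) hHb ?_
        · intro i
          exact hno _ _ (by simp; omega)
        · intro i i' hii
          have h1 := (Prod.mk.inj (Sum.inl.inj hii)).1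
          have h2 := congrArg Fin.val (Prod.mk.inj (Sum.inl.inj hii)).2
          have h3 := congrArg Fin.val (Prod.mk.inj (Prod.mk.inj h1).2).1
          simp at h2 h3
          exact Fin.ext (by omega)
        · intro i
          simp
      by_cases hex : ∃ a : Fin (2 * h), P (z, g, b) (lo a) ∉ U ∧ S z g a ∉ U
      · obtain ⟨a, h1, h2⟩ := hex
        exact step _ _ (hT z g b v hv hgv a h1 h2) (aPC z g b v hv) hgv hc
      · exfalso
        refine hpair z g b (fun a => ?_) (H b) hHb (fun a => by simp) (fun a => by simp)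
        by_contra hn
        push Not at hn
        exact hex ⟨a, hn⟩
    · exact step _ _ (hH b hHb) (aCH z b).symm hHb hc
  -- top vertices
  have hTop : ∀ z g b (v : Fin (2 * h + 2)), v.val / 2 = h → P (z, g, b) v ∉ U →
      Rb (P (z, g, b) v) := by
    intro z g b v hv hvU
    by_cases hc : C z b ∈ U
    · by_cases hex : ∃ a : Fin (2 * h), P (z, g, b) (lo a) ∉ U ∧ S z g a ∉ U
      · obtain ⟨a, h1, h2⟩ := hex
        exact hT z g b v hv hvU a h1 h2
      · exfalso
        refine hpair z g b (fun a => ?_) (C z b) hc (fun a => by simp) (fun a => by simp)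
        by_contra hn
        push Not at hn
        exact hex ⟨a, hn⟩
    · exact step _ _ (hC z b hc) (aPC z g b v hv).symm hc hvU
  -- low vertices
  have hLow : ∀ z g b (c : Fin (2 * h)), P (z, g, b) (lo c) ∉ U → Rb (P (z, g, b) (lo c)) := by
    intro z g b c hcU
    by_cases hs : S z g c ∈ U
    swap
    · exact hL z g b c hcU hs
    by_cases htop : P (z, g, b) t0 ∈ U ∧ P (z, g, b) t1 ∈ U
    · -- both top vertices removed: some other pair is alive
      by_cases hex : ∃ a : Fin (2 * h), a.val / 2 ≠ c.val / 2 ∧ P (z, g, b) (lo a) ∉ U ∧ S z g a ∉ U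
      · obtain ⟨a, h0, h1, h2⟩ := hex
        exact step _ _ (hL z g b a h1 h2) (aPP (z, g, b) (v := lo a) (w := lo c) h0) h1 hcU
      · exfalso
        push Not at hex
        refine pk hU (fun a => if a = c then S z g c else if a.val / 2 = c.val / 2 then
          P (z, g, b) t0 else if P (z, g, b) (lo a) ∈ U then P (z, g, b) (lo a) else S z g a)
          ?_ ?_ (P (z, g, b) t1) htop.2 ?_
        · intro a
          by_cases e1 : a = c
          · simp only [e1, if_true]
            exact hs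
          by_cases e2 : a.val / 2 = c.val / 2
          · simp only [e1, e2, if_true, if_false]
            exact htop.1
          by_cases e3 : (P (z, g, b) (lo a) : Vo N h j) ∈ U
          · simp only [e1, e2, e3, if_true, if_false]
          · simp only [e1, e2, e3, if_false]
            exact hex a e2 e3
        · intro a a' haa
          by_cases e1 : a = c <;> by_cases e2 : a.val / 2 = c.val / 2 <;>
            by_cases e3 : (P (z, g, b) (lo a) : Vo N h j) ∈ U <;>
            by_cases d1 : a' = c <;> by_cases d2 : a'.val / 2 = c.val / 2 <;>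
            by_cases d3 : (P (z, g, b) (lo a') : Vo N h j) ∈ U <;>
            simp only [e1, e2, e3, d1, d2, d3, if_true, if_false] at haa <;>
            first
              | exact e1.trans d1.symm
              | (exfalso; simp at haa; done)
              | (have q1 := congrArg Fin.val (Prod.mk.inj (Sum.inl.inj haa)).2
                 exact Fin.ext (by simp at q1; omega))
              | (have q1 := (Prod.mk.inj (Prod.mk.inj (Sum.inl.inj (Sum.inr.inj haa))).2).2
                 first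
                   | exact q1
                   | exact absurd q1.symm e1
                   | exact absurd q1 (fun e => d1 e.symm)
                   | exact absurd q1 e1)
              | (exact Fin.ext (by
                  have q2 : a.val ≠ c.val := fun e => e1 (Fin.ext e)
                  have q3 : a'.val ≠ c.val := fun e => d1 (Fin.ext e)
                  omega))
        · intro a
          have ha := a.2
          by_cases e1 : a = c
          · simp only [e1, if_true]
            simp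
          by_cases e2 : a.val / 2 = c.val / 2
          · simp only [e1, e2, if_true, if_false]
            simp
          by_cases e3 : (P (z, g, b) (lo a) : Vo N h j) ∈ U
          · simp only [e1, e2, e3, if_true, if_false]
            intro e
            have := congrArg Fin.val (Prod.mk.inj (Sum.inl.inj e)).2
            simp at this
            omega
          · simp only [e1, e2, e3, if_false]
            simp
    · -- a top vertex is alive
      obtain ⟨v, hv, hvU⟩ : ∃ v : Fin (2 * h + 2), v.val / 2 = h ∧ P (z, g, b) v ∉ U := by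
        by_cases h1 : P (z, g, b) t0 ∈ U
        · exact ⟨t1, by simp; omega, fun h2 => htop ⟨h1, h2⟩⟩
        · exact ⟨t0, by simp, h1⟩
      exact step _ _ (hTop z g b v hv hvU)
        (aPP (z, g, b) (v := v) (w := lo c) (by rw [hv]; simp; omega)) hvU hcU
  have hPall : ∀ z g b (v : Fin (2 * h + 2)), P (z, g, b) v ∉ U → Rb (P (z, g, b) v) := by
    intro z g b v hv
    by_cases hlt : v.val < 2 * h
    · exact hLow z g b ⟨v.val, hlt⟩ hv
    · exact hTop z g b v (by omega) hv
  have hE : ∀ t, E t ∉ U → Rb (E t) := by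
    intro t ht
    obtain ⟨b, hb⟩ : ∃ b, H b ∉ U := by
      obtain ⟨i, _, _, hi⟩ := column hU z0 g0
      exact ⟨i, hi⟩
    exact step _ _ (hH b hb) (aHE b t) hb ht
  have hall : ∀ v, v ∉ U → Rb v := by
    rintro (⟨⟨z, g, b⟩, v⟩ | ⟨z, g, a⟩ | ⟨z, b⟩ | b | t) hv
    · exact hPall z g b v hv
    · exact hS z g a hv
    · exact hC z b hv
    · exact hH b hv
    · exact hE t hv
  exact ⟨⟨_, hC0 b0⟩, fun a b ha hb => (rtg_symm (hall a ha)).trans (hall b hb)⟩

end Pool.Agent.H76.Odd
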