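import Pool.Agent.H76.RE.Odd

/-! The number of removable edges for odd `k = 2h + 1`. -/

namespace Pool.Agent.H76.Odd
open Finset
open Pool.Agent.H76.RE (KC sep Ad vertex_one pig conn_iff)

variable {N h j : ℕ} {F : Finset (Sym2 (Vo N h j))}

lemma nb_P (z : Fin N) (g : Fin h) (b : Fin (2 * h + 1)) (v : Fin (2 * h + 2)) :
    ∃ nb : Finset (Vo N h j), nb.card ≤ 2 * h + 1 ∧
      ∀ w, (Go N h j).Adj (P (z, g, b) v) w → w ∈ nb := by
  classical
  set fl : Finset (Fin (2 * h + 2)) := univ.filter (fun w => w.val / 2 ≠ v.val / 2) with hfl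
  have hv := v.2
  have hcard : fl.card ≤ 2 * h := by
    set v' : Fin (2 * h + 2) := ⟨(v.val / 2) * 2 + (1 - v.val % 2), by omega⟩ with hv'
    have hne : v' ≠ v := by
      intro e
      have := congrArg Fin.val e
      simp only [hv'] at this
      omega
    have hsub : fl ⊆ (univ.erase v).erase v' := by
      intro w hw
      have hw2 := (mem_filter.mp hw).2
      refine mem_erase.mpr ⟨?_, mem_erase.mpr ⟨?_, mem_univ _⟩⟩
      · rintro rfl
        apply hw2
        simp only [hv']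
        omega
      · rintro rfl
        exact hw2 rfl
    refine (card_le_card hsub).trans ?_
    rw [card_erase_of_mem (mem_erase.mpr ⟨hne, mem_univ _⟩), card_erase_of_mem (mem_univ _),
      card_univ, Fintype.card_fin]
    omega
  refine ⟨insert (if hlt : v.val < 2 * h then S z g ⟨v.val, hlt⟩ else C z b)
    (fl.image (fun w => P (z, g, b) w)), ?_, ?_⟩
  · refine (card_insert_le _ _).trans ?_
    have : (fl.image (fun w => (P (z, g, b) w : Vo N h j))).card ≤ fl.card := card_image_le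
    omega
  · rintro (⟨q, w⟩ | ⟨z', g', a⟩ | ⟨z', b'⟩ | b' | t) hw
    · obtain ⟨h1, h2⟩ : (z, g, b) = q ∧ v.val / 2 ≠ w.val / 2 := hw
      subst h1
      exact mem_insert_of_mem (mem_image.mpr ⟨w, mem_filter.mpr ⟨mem_univ _, fun e => h2 e.symm⟩, rfl⟩)
    · obtain ⟨h1, h2, h3⟩ : z = z' ∧ g = g' ∧ v.val = a.val := hw
      subst h1 h2
      have hlt : v.val < 2 * h := by rw [h3]; exact a.2
      rw [dif_pos hlt]
      refine mem_insert.mpr (Or.inl ?_)
      have : a = ⟨v.val, hlt⟩ := Fin.ext h3.symm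
      rw [this]
    · obtain ⟨h1, h2, h3⟩ : z = z' ∧ b = b' ∧ v.val / 2 = h := hw
      subst h1 h2
      have hlt : ¬ v.val < 2 * h := by omega
      rw [dif_neg hlt]
      exact mem_insert_self _ _
    · exact absurd hw (by simp [Go, adj])
    · exact absurd hw (by simp [Go, adj])

lemma nb_C (z : Fin N) (b : Fin (2 * h + 1)) :
    ∃ nb : Finset (Vo N h j), nb.card ≤ 2 * h + 1 ∧
      ∀ w, (Go N h j).Adj (C z b) w → w ∈ nb := by
  classical
  refine ⟨insert (H b) ((univ : Finset (Fin (2 * h))).image (fun i : Fin (2 * h) =>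
    (P (z, ⟨i.val / 2, by omega⟩, b) (⟨2 * h + i.val % 2, by omega⟩ : Fin (2 * h + 2)) : Vo N h j))),
    ?_, ?_⟩
  · refine (card_insert_le _ _).trans (Nat.succ_le_succ (card_image_le.trans ?_))
    rw [card_univ, Fintype.card_fin]
  · rintro (⟨⟨z', g, b'⟩, v⟩ | ⟨z', g', a⟩ | ⟨z', b'⟩ | b' | t) hw
    · obtain ⟨h1, h2, h3⟩ : z' = z ∧ b' = b ∧ v.val / 2 = h := hw
      subst h1 h2
      have hv := v.2
      have hg := g.2
      refine mem_insert_of_mem (mem_image.mpr ⟨⟨2 * g.val + (v.val - 2 * h), by omega⟩,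
        mem_univ _, ?_⟩)
      have e1 : (⟨(2 * g.val + (v.val - 2 * h)) / 2, by omega⟩ : Fin h) = g := Fin.ext (by simp; omega)
      have e2 : (⟨2 * h + (2 * g.val + (v.val - 2 * h)) % 2, by omega⟩ : Fin (2 * h + 2)) = v :=
        Fin.ext (by simp; omega)
      simp only [e1, e2]
    · exact absurd hw (by simp [Go, adj])
    · exact absurd hw (by simp [Go, adj])
    · have h1 : b = b' := hw
      subst h1
      exact mem_insert_self _ _
    · exact absurd hw (by simp [Go, adj])

lemma nb_E (t : Fin j) : ∃ nb : Finset (Vo N h j), nb.card ≤ 2 * h + 1 ∧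
      ∀ w, (Go N h j).Adj (E t) w → w ∈ nb := by
  classical
  refine ⟨(univ : Finset (Fin (2 * h + 1))).image (fun b => (H b : Vo N h j)), ?_, ?_⟩
  · refine card_image_le.trans ?_
    rw [card_univ, Fintype.card_fin]
  · rintro (⟨⟨z', g, b'⟩, v⟩ | ⟨z', g', a⟩ | ⟨z', b'⟩ | b' | t') hw
    · exact absurd hw (by simp [Go, adj])
    · exact absurd hw (by simp [Go, adj])
    · exact absurd hw (by simp [Go, adj])
    · exact mem_image.mpr ⟨b', mem_univ _, rfl⟩
    · exact absurd hw (by simp [Go, adj])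

/-- a piece loses at most one edge to special vertices -/
lemma out_one (hh : 1 ≤ h)
    (hT : KC ((Go N h j).deleteEdges (F : Set (Sym2 (Vo N h j)))) (2 * h + 1 - 1))
    (z : Fin N) (g : Fin h) (b : Fin (2 * h + 1)) {a a' : Fin (2 * h)}
    (ha : s(P (z, g, b) (lo a), S z g a) ∈ F) (ha' : s(P (z, g, b) (lo a'), S z g a') ∈ F) :
    a = a' := by
  classical
  by_contra hne
  have := sep hT {x | ∃ v, x = P (z, g, b) v}
    (insert (C z b) (((univ.erase a).erase a').image (fun c => (S z g c : Vo N h j))))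
    (x := P (z, g, b) t0) (z := H b) ⟨t0, rfl⟩ (by simp) (by
      rintro ⟨v, hv⟩
      exact absurd hv (by simp)) (by simp) (by
      rintro x ⟨v, rfl⟩ w hw
      obtain ⟨hw1, hw2⟩ := (SimpleGraph.deleteEdges_adj).mp hw
      rcases w with (⟨q, w⟩ | ⟨z', g', c⟩ | ⟨z', b'⟩ | b' | t)
      · obtain ⟨h1, h2⟩ : (z, g, b) = q ∧ v.val / 2 ≠ w.val / 2 := hw1
        subst h1
        exact Or.inl ⟨w, rfl⟩
      · obtain ⟨h1, h2, h3⟩ : z = z' ∧ g = g' ∧ v.val = c.val := hw1
        subst h1 h2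
        have hvc : v = lo c := Fin.ext h3
        subst hvc
        refine Or.inr (mem_insert_of_mem (mem_image.mpr ⟨c, mem_erase.mpr ⟨?_,
          mem_erase.mpr ⟨?_, mem_univ _⟩⟩, rfl⟩))
        · rintro rfl
          exact hw2 ha'
        · rintro rfl
          exact hw2 ha
      · obtain ⟨h1, h2, h3⟩ : z = z' ∧ b = b' ∧ v.val / 2 = h := hw1
        subst h1 h2
        exact Or.inr (mem_insert_self _ _)
      · exact absurd hw1 (by simp [Go, adj])
      · exact absurd hw1 (by simp [Go, adj]))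
  have h1 := card_insert_le (C z b : Vo N h j)
    (((univ.erase a).erase a').image (fun c => (S z g c : Vo N h j)))
  have h2 : (((univ.erase a).erase a').image (fun c => (S z g c : Vo N h j))).card ≤
      2 * h - 1 - 1 := by
    refine card_image_le.trans ?_
    rw [card_erase_of_mem (mem_erase.mpr ⟨fun e => hne e.symm, mem_univ _⟩),
      card_erase_of_mem (mem_univ _), card_univ, Fintype.card_fin]
  have h3 : a.val ≠ a'.val := fun e => hne (Fin.ext e)
  have := a.2
  have := a'.2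
  omega

/-- edge from a piece to a special vertex -/
def Outer (z : Fin N) (g : Fin h) (b : Fin (2 * h + 1)) (e : Sym2 (Vo N h j)) : Prop :=
  ∃ a : Fin (2 * h), e = s(P (z, g, b) (lo a), S z g a)

/-- edge at piece `q` and not at a double vertex -/
def Mine (q : Fin N × Fin h × Fin (2 * h + 1)) (e : Sym2 (Vo N h j)) : Prop :=
  (∃ v, (P q v : Vo N h j) ∈ e) ∧ ¬ ∃ z b, (C z b : Vo N h j) ∈ e

open Classical in
lemma piece_bound (hh : 1 ≤ h) (hF : (F : Set (Sym2 (Vo N h j))) ⊆ (Go N h j).edgeSet)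
    (hT : KC ((Go N h j).deleteEdges (F : Set (Sym2 (Vo N h j)))) (2 * h + 1 - 1))
    (q : Fin N × Fin h × Fin (2 * h + 1)) :
    (F.filter (fun e => Mine q e)).card ≤ h + 1 := by
  obtain ⟨z, g, b⟩ := q
  set M := F.filter (fun e => Mine (z, g, b) e) with hM
  have h1 : ∑ e ∈ M, ((univ : Finset (Fin (2 * h + 2))).filter
      (fun v => (P (z, g, b) v : Vo N h j) ∈ e)).card
      = ∑ v : Fin (2 * h + 2), (M.filter (fun e => (P (z, g, b) v : Vo N h j) ∈ e)).card :=
    sum_card_bipartiteAbove_eq_sum_card_bipartiteBelow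
      (fun e (v : Fin (2 * h + 2)) => (P (z, g, b) v : Vo N h j) ∈ e)
  have h2 : ∀ v : Fin (2 * h + 2), (M.filter (fun e => (P (z, g, b) v : Vo N h j) ∈ e)).card ≤ 1 := by
    intro v
    refine card_le_one.mpr fun e he e' he' => ?_
    obtain ⟨he1, he2⟩ := mem_filter.mp he
    obtain ⟨he1', he2'⟩ := mem_filter.mp he'
    obtain ⟨w, rfl⟩ := Sym2.mem_iff_exists.mp he2
    obtain ⟨w', rfl⟩ := Sym2.mem_iff_exists.mp he2'
    obtain ⟨nb, hc, hnb⟩ := nb_P (j := j) z g b v
    rw [vertex_one (by omega) hF hT nb hc hnb (mem_filter.mp he1).1 (mem_filter.mp he1').1]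
  have h3 : ∑ v : Fin (2 * h + 2), (M.filter (fun e => (P (z, g, b) v : Vo N h j) ∈ e)).card
      ≤ 2 * h + 2 := by
    refine (sum_le_sum fun i _ => h2 i).trans ?_
    simp
  have h4 : (M.filter (fun e => Outer z g b e)).card ≤ 1 := by
    refine card_le_one.mpr fun e he e' he' => ?_
    obtain ⟨he1, i, rfl⟩ := mem_filter.mp he
    obtain ⟨he1', i', rfl⟩ := mem_filter.mp he'
    rw [out_one hh hT z g b (mem_filter.mp he1).1 (mem_filter.mp he1').1]
  have h5 : ∀ e ∈ M, 2 ≤ ((univ : Finset (Fin (2 * h + 2))).filter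
      (fun v => (P (z, g, b) v : Vo N h j) ∈ e)).card + (if Outer z g b e then 1 else 0) := by
    intro e he
    obtain ⟨heF, ⟨v, hi⟩, hnC⟩ := mem_filter.mp he
    obtain ⟨w, rfl⟩ := Sym2.mem_iff_exists.mp hi
    have ha : (Go N h j).Adj (P (z, g, b) v) w := hF heF
    rcases w with (⟨q, w⟩ | ⟨z', g', c⟩ | ⟨z', b'⟩ | b' | t)
    · obtain ⟨h6, h7⟩ : (z, g, b) = q ∧ v.val / 2 ≠ w.val / 2 := ha
      subst h6
      have hvw : v ≠ w := fun e => h7 (by rw [e])
      have : ({v, w} : Finset (Fin (2 * h + 2))) ⊆ (univ : Finset (Fin (2 * h + 2))).filter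
          (fun x => (P (z, g, b) x : Vo N h j) ∈ s(P (z, g, b) v, P (z, g, b) w)) := by
        intro x hx
        refine mem_filter.mpr ⟨mem_univ _, ?_⟩
        rcases mem_insert.mp hx with rfl | hx
        · exact Sym2.mem_mk_left _ _
        · rw [mem_singleton.mp hx]
          exact Sym2.mem_mk_right _ _
      have := card_le_card this
      rw [card_pair hvw] at this
      exact this.trans (Nat.le_add_right _ _)
    · obtain ⟨h6, h7, h8⟩ : z = z' ∧ g = g' ∧ v.val = c.val := ha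
      subst h6 h7
      have hvc : v = lo c := Fin.ext h8
      subst hvc
      have h9 : Outer z g b (s(P (z, g, b) (lo c), S z g c) : Sym2 (Vo N h j)) := ⟨c, rfl⟩
      rw [if_pos h9]
      exact Nat.succ_le_succ (card_pos.mpr ⟨lo c, mem_filter.mpr ⟨mem_univ _, Sym2.mem_mk_left _ _⟩⟩)
    · exact absurd ⟨z', b', Sym2.mem_mk_right _ _⟩ hnC
    · exact absurd ha (by simp [Go, adj])
    · exact absurd ha (by simp [Go, adj])
  have h6 : 2 * M.card ≤ 2 * h + 3 := by
    have h7 : ∑ _e ∈ M, 2 ≤ ∑ e ∈ M, (((univ : Finset (Fin (2 * h + 2))).filter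
        (fun v => (P (z, g, b) v : Vo N h j) ∈ e)).card + (if Outer z g b e then 1 else 0)) :=
      sum_le_sum h5
    rw [sum_const, smul_eq_mul, sum_add_distrib, h1, ← card_filter] at h7
    omega
  omega

open Classical in
theorem edge_bound (hh : 1 ≤ h) (hF : (F : Set (Sym2 (Vo N h j))) ⊆ (Go N h j).edgeSet)
    (hT : KC ((Go N h j).deleteEdges (F : Set (Sym2 (Vo N h j)))) (2 * h + 1 - 1)) :
    F.card ≤ N * (h * (2 * h + 1)) * (h + 1) + (N * (2 * h + 1) + j) := by
  have hsub : F ⊆ ((univ : Finset (Fin N × Fin h × Fin (2 * h + 1))).biUnion (fun q =>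
        F.filter (fun e => Mine q e))) ∪
      (((univ : Finset (Fin N × Fin (2 * h + 1))).biUnion
        (fun c => F.filter (fun e => (C c.1 c.2 : Vo N h j) ∈ e))) ∪
      ((univ : Finset (Fin j)).biUnion (fun t => F.filter (fun e => (E t : Vo N h j) ∈ e)))) := by
    intro e he
    by_cases hCe : ∃ z b, (C z b : Vo N h j) ∈ e
    · obtain ⟨z, b, hzb⟩ := hCe
      exact mem_union_right _ (mem_union_left _ (mem_biUnion.mpr ⟨(z, b), mem_univ _,
        mem_filter.mpr ⟨he, hzb⟩⟩))
    have hkey : (∃ q, ∃ v, (P q v : Vo N h j) ∈ e) ∨ ∃ t : Fin j, (E t : Vo N h j) ∈ e := by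
      have heE := hF he
      induction e using Sym2.ind with
      | _ x y =>
        have hxy : (Go N h j).Adj x y := heE
        rcases x with (⟨q, v⟩ | ⟨z, g, a⟩ | ⟨z, b⟩ | b | t)
        · exact Or.inl ⟨q, v, Sym2.mem_mk_left _ _⟩
        · rcases y with (⟨q, v⟩ | ⟨z', g', a'⟩ | ⟨z', b'⟩ | b' | t')
          · exact Or.inl ⟨q, v, Sym2.mem_mk_right _ _⟩
          · exact absurd hxy (by simp [Go, adj])
          · exact absurd hxy (by simp [Go, adj])
          · exact absurd hxy (by simp [Go, adj])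
          · exact absurd hxy (by simp [Go, adj])
        · exact absurd ⟨z, b, Sym2.mem_mk_left _ _⟩ hCe
        · rcases y with (⟨q, v⟩ | ⟨z', g', a'⟩ | ⟨z', b'⟩ | b' | t')
          · exact Or.inl ⟨q, v, Sym2.mem_mk_right _ _⟩
          · exact absurd hxy (by simp [Go, adj])
          · exact absurd ⟨z', b', Sym2.mem_mk_right _ _⟩ hCe
          · exact absurd hxy (by simp [Go, adj])
          · exact Or.inr ⟨t', Sym2.mem_mk_right _ _⟩
        · exact Or.inr ⟨t, Sym2.mem_mk_left _ _⟩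
    rcases hkey with ⟨q, hq⟩ | ⟨t, ht⟩
    · exact mem_union_left _ (mem_biUnion.mpr ⟨q, mem_univ _, mem_filter.mpr ⟨he, hq, hCe⟩⟩)
    · exact mem_union_right _ (mem_union_right _ (mem_biUnion.mpr ⟨t, mem_univ _,
        mem_filter.mpr ⟨he, ht⟩⟩))
  refine (card_le_card hsub).trans ((card_union_le _ _).trans (Nat.add_le_add ?_
    ((card_union_le _ _).trans (Nat.add_le_add ?_ ?_))))
  · refine card_biUnion_le.trans ((sum_le_sum fun q _ => piece_bound hh hF hT q).trans ?_)
    simp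
  · refine card_biUnion_le.trans ((sum_le_sum fun c _ => (?_ : _ ≤ 1)).trans ?_)
    · refine card_le_one.mpr fun e he e' he' => ?_
      obtain ⟨he1, he2⟩ := mem_filter.mp he
      obtain ⟨he1', he2'⟩ := mem_filter.mp he'
      obtain ⟨w, rfl⟩ := Sym2.mem_iff_exists.mp he2
      obtain ⟨w', rfl⟩ := Sym2.mem_iff_exists.mp he2'
      obtain ⟨nb, hc, hnb⟩ := nb_C (j := j) c.1 c.2
      rw [vertex_one (by omega) hF hT nb hc hnb he1 he1']
    · simp
  · refine card_biUnion_le.trans ((sum_le_sum fun t _ => (?_ : _ ≤ 1)).trans ?_)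
    · refine card_le_one.mpr fun e he e' he' => ?_
      obtain ⟨he1, he2⟩ := mem_filter.mp he
      obtain ⟨he1', he2'⟩ := mem_filter.mp he'
      obtain ⟨w, rfl⟩ := Sym2.mem_iff_exists.mp he2
      obtain ⟨w', rfl⟩ := Sym2.mem_iff_exists.mp he2'
      obtain ⟨nb, hc, hnb⟩ := nb_E (N := N) (h := h) t
      rw [vertex_one (by omega) hF hT nb hc hnb he1 he1']
    · simp

end Pool.Agent.H76.Odd
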