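import Pool.Agent.H76.RE.Gen
import Pool.Agent.H76.RE.Bound
import Pool.Agent.H76.RE.Num

/-! The piece made from the Petersen graph by removing a vertex. -/

namespace Pool.Agent.H76.Pet
open Finset Pool.Agent.H76.RE.Gen
open Pool.Agent.H76.RE (KC sep ne_succ Ad vertex_one)

def nb : Fin 9 → Finset (Fin 9) := ![{1, 4, 5}, {0, 2, 6}, {1, 3, 7}, {2, 4, 8}, {0, 3}, {0, 7, 8}, {1, 8}, {2, 5}, {3, 5, 6}]
def ports : Fin 3 → Fin 9 := ![4, 7, 6]
def src : Fin 15 → Fin 9 := ![0, 1, 2, 3, 4, 0, 1, 2, 3, 5, 6, 8, 4, 7, 6]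
def tgt : Fin 15 → Fin 9 ⊕ Fin 3 := ![Sum.inl 1, Sum.inl 2, Sum.inl 3, Sum.inl 4, Sum.inl 0, Sum.inl 5, Sum.inl 6, Sum.inl 7, Sum.inl 8, Sum.inl 7, Sum.inl 8, Sum.inl 5, Sum.inr 0, Sum.inr 1, Sum.inr 2]

/-- the Petersen graph without one vertex -/
def X : SimpleGraph (Fin 9) where
  Adj a b := b ∈ nb a
  symm := ⟨by decide⟩
  loopless := ⟨by decide⟩

lemma ports_inj : Function.Injective ports := by decide

/-- one round of growing a set outside `S` -/
def grow (S R : Finset (Fin 9)) : Finset (Fin 9) := (R ∪ R.biUnion nb) \ S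

lemma grow_sound (S R : Finset (Fin 9)) (hR : ∀ r ∈ R, r ∉ S) (n : ℕ) :
    ∀ b ∈ (grow S)^[n] R, b ∉ S ∧ ∃ r ∈ R, Relation.ReflTransGen (Ad X S) r b := by
  induction n with
  | zero => exact fun b hb => ⟨hR b hb, b, hb, Relation.ReflTransGen.refl⟩
  | succ n ih =>
    intro b hb
    rw [Function.iterate_succ_apply'] at hb
    obtain ⟨h1, h2⟩ := mem_sdiff.mp hb
    refine ⟨h2, ?_⟩
    rcases mem_union.mp h1 with h | h
    · exact (ih b h).2
    · obtain ⟨c, hc, hcb⟩ := mem_biUnion.mp h
      obtain ⟨h3, r, hr, h4⟩ := ih c hc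
      exact ⟨r, hr, h4.tail ⟨hcb, h3, h2⟩⟩

lemma comp1 : ∀ S : Finset (Fin 9), S.card < 3 →
    univ \ S ⊆ (grow S)^[5] ((univ.image ports) \ S) := by decide +kernel

lemma comp2 : ∀ S : Finset (Fin 9), S.card < 2 →
    univ \ S ⊆ (grow S)^[6] {if 0 ∈ S then 1 else 0} := by decide +kernel

lemma rs {S : Finset (Fin 9)} {a b : Fin 9} (h : Relation.ReflTransGen (Ad X S) a b) :
    Relation.ReflTransGen (Ad X S) b a := by
  induction h with
  | refl => exact Relation.ReflTransGen.refl
  | @tail c d _ hcd ih => exact Relation.ReflTransGen.head hcd.symm ih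

lemma H1 (S : Finset (Fin 9)) (hS : S.card < 3) (a : Fin 9) (ha : a ∉ S) :
    ∃ i, ports i ∉ S ∧ Relation.ReflTransGen (Ad X S) a (ports i) := by
  have h := comp1 S hS (mem_sdiff.mpr ⟨mem_univ a, ha⟩)
  obtain ⟨_, r, hr, h2⟩ := grow_sound S _ (fun r hr => (mem_sdiff.mp hr).2) 5 a h
  obtain ⟨h3, h4⟩ := mem_sdiff.mp hr
  obtain ⟨i, _, rfl⟩ := mem_image.mp h3
  exact ⟨i, h4, rs h2⟩

lemma H2 (S : Finset (Fin 9)) (hS : S.card < 3 - 1) (a b : Fin 9) (ha : a ∉ S) (hb : b ∉ S) :
    Relation.ReflTransGen (Ad X S) a b := by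
  have hR : ∀ r ∈ ({if 0 ∈ S then 1 else 0} : Finset (Fin 9)), r ∉ S := by
    intro r hr
    rw [mem_singleton.mp hr]
    split_ifs with h0
    · intro h1
      have : ({0, 1} : Finset (Fin 9)) ⊆ S := by
        intro z hz
        rcases mem_insert.mp hz with rfl | hz
        · exact h0
        · rw [mem_singleton.mp hz]; exact h1
      have := card_le_card this
      have h2 : ({0, 1} : Finset (Fin 9)).card = 2 := by decide
      omega
    · exact h0
  obtain ⟨_, r, hr, h2⟩ := grow_sound S _ hR 6 a (comp2 S (by omega) (mem_sdiff.mpr ⟨mem_univ a, ha⟩))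
  obtain ⟨_, r', hr', h3⟩ := grow_sound S _ hR 6 b (comp2 S (by omega) (mem_sdiff.mpr ⟨mem_univ b, hb⟩))
  have : r = r' := (mem_singleton.mp hr).trans (mem_singleton.mp hr').symm
  subst this
  exact (rs h2).trans h3

variable {N j : ℕ}

def ia (y : ZMod N) : Fin 9 ⊕ Fin 3 → Vg N (Fin 9) j
  | Sum.inl a => pt y a
  | Sum.inr i => sp (y - ((i : ℕ) : ZMod N))

/-- the `e`-th edge at piece `y` -/
def ge (y : ZMod N) (e : Fin 15) : Sym2 (Vg N (Fin 9) j) := s(pt y (src e), ia y (tgt e))

lemma e_in : ∀ a b : Fin 9, b ∈ nb a →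
    ∃ e : Fin 15, (a = src e ∧ tgt e = Sum.inl b) ∨ (tgt e = Sum.inl a ∧ b = src e) := by decide

lemma e_out : ∀ i : Fin 3, ∃ e : Fin 15, ports i = src e ∧ tgt e = Sum.inr i := by decide

lemma touch {y : ZMod N} {a : Fin 9} {w : Vg N (Fin 9) j} (h : (Gr N j X ports).Adj (pt y a) w) :
    ∃ e : Fin 15, (a = src e ∧ w = ia y (tgt e)) ∨ (tgt e = Sum.inl a ∧ w = pt y (src e)) := by
  rcases w with (⟨y', b⟩ | s | t)
  · obtain ⟨h1, h2⟩ : y = y' ∧ b ∈ nb a := h
    subst h1
    obtain ⟨e, he | he⟩ := e_in a b h2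
    · exact ⟨e, Or.inl ⟨he.1, by rw [he.2]; rfl⟩⟩
    · exact ⟨e, Or.inr ⟨he.1, by rw [he.2]⟩⟩
  · obtain ⟨i, h1, h2⟩ : ∃ i : Fin 3, a = ports i ∧ y = s + ((i : ℕ) : ZMod N) := h
    obtain ⟨e, he, he2⟩ := e_out i
    refine ⟨e, Or.inl ⟨h1.trans he, ?_⟩⟩
    rw [he2, h2]
    show Sum.inr (Sum.inl s) = Sum.inr (Sum.inl _)
    simp
  · exact absurd h (by simp [Gr, adj])

variable {F : Finset (Sym2 (Vg N (Fin 9) j))}

/-- edges with exactly one end in `Z` -/
def dl (Z : Finset (Fin 9)) : Finset (Fin 15) :=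
  univ.filter (fun e => ¬ (src e ∈ Z ↔ ∃ b ∈ Z, tgt e = Sum.inl b))

lemma cut [NeZero N] (hN : 6 ≤ N)
    (hT : KC ((Gr N j X ports).deleteEdges (F : Set (Sym2 (Vg N (Fin 9) j)))) (3 - 1)) (y : ZMod N)
    (Z : Finset (Fin 9)) (hZ : Z.Nonempty) :
    2 ≤ ((dl Z).filter (fun e => ge y e ∉ F)).card := by
  classical
  obtain ⟨a0, ha0⟩ := hZ
  set B := (dl Z).filter (fun e => ge y e ∉ F) with hB
  set o : Fin 15 → Vg N (Fin 9) j := fun e => if src e ∈ Z then ia y (tgt e) else pt y (src e)
    with ho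
  have hcard : (B.image o).card ≤ B.card := card_image_le
  refine le_trans ?_ hcard
  by_contra hlt
  -- a far vertex outside
  have hfar : ∀ e, o e ≠ pt (y + 1) 0 := by
    intro e
    simp only [ho]
    split_ifs with h
    · rcases tgt e with b | i
      · intro he
        exact ne_succ (N := N) (by omega) y (Prod.mk.inj (Sum.inl.inj he)).1
      · intro he
        exact absurd he (by simp [ia])
    · intro he
      exact ne_succ (N := N) (by omega) y (Prod.mk.inj (Sum.inl.inj he)).1
  have hinX : ∀ e ∈ B, ∀ c ∈ Z, o e ≠ pt y c := by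
    intro e he c hc heq
    have hd := (mem_filter.mp (mem_filter.mp he).1).2
    simp only [ho] at heq
    split_ifs at heq with h
    · refine hd ⟨fun _ => ?_, fun _ => h⟩
      rcases htt : tgt e with b | i
      · rw [htt] at heq
        have : b = c := (Prod.mk.inj (Sum.inl.inj heq)).2
        exact ⟨c, hc, by rw [this]⟩
      · rw [htt] at heq
        exact absurd heq (by simp [ia])
    · have : src e = c := (Prod.mk.inj (Sum.inl.inj heq)).2
      exact h (this ▸ hc)
  have := sep hT {v | ∃ c ∈ Z, v = pt y c} (B.image o) (x := pt y a0) (z := pt (y + 1) 0)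
    ⟨a0, ha0, rfl⟩ (by
      intro hm
      obtain ⟨e, he, h⟩ := mem_image.mp hm
      exact hinX e he a0 ha0 h) (by
      rintro ⟨c, _, hc⟩
      exact ne_succ (N := N) (by omega) y (Prod.mk.inj (Sum.inl.inj hc)).1.symm) (by
      intro hm
      obtain ⟨e, _, h⟩ := mem_image.mp hm
      exact hfar e h) (by
      rintro v ⟨c, hc, rfl⟩ w hw
      obtain ⟨hw1, hw2⟩ := (SimpleGraph.deleteEdges_adj).mp hw
      by_cases hwZ : ∃ c' ∈ Z, w = pt y c'
      · exact Or.inl hwZ
      right
      obtain ⟨e, ⟨h1, h2⟩ | ⟨h1, h2⟩⟩ := touch hw1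
      · refine mem_image.mpr ⟨e, mem_filter.mpr ⟨mem_filter.mpr ⟨mem_univ _, ?_⟩, ?_⟩, ?_⟩
        · intro hiff
          obtain ⟨b, hb, hbt⟩ := hiff.mp (h1 ▸ hc)
          exact hwZ ⟨b, hb, by rw [h2, hbt]; rfl⟩
        · intro hF
          apply hw2
          have : s(pt y c, w) = ge y e := by rw [h2, h1]; rfl
          rw [this]
          exact hF
        · simp only [ho]
          rw [if_pos (h1 ▸ hc), h2]
      · have hs : src e ∉ Z := fun hs => hwZ ⟨_, hs, h2⟩
        refine mem_image.mpr ⟨e, mem_filter.mpr ⟨mem_filter.mpr ⟨mem_univ _, ?_⟩, ?_⟩, ?_⟩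
        · intro hiff
          exact hs (hiff.mpr ⟨c, hc, h1⟩)
        · intro hF
          apply hw2
          have : s(pt y c, w) = ge y e := by
            rw [h2]
            unfold ge
            rw [h1, Sym2.eq_swap]
            rfl
          rw [this]
          exact hF
        · simp only [ho]
          rw [if_neg hs, h2])
  omega

/-- at most four of the edges at a piece are removed -/
lemma four [NeZero N] (hN : 6 ≤ N)
    (hT : KC ((Gr N j X ports).deleteEdges (F : Set (Sym2 (Vg N (Fin 9) j)))) (3 - 1)) (y : ZMod N) :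
    ((univ : Finset (Fin 15)).filter (fun e => ge y e ∈ F)).card ≤ 4 := by
  classical
  set v : Fin 15 → ℕ := fun e => if ge y e ∈ F then 1 else 0 with hv
  have hc : ∀ Z : Finset (Fin 9), Z.Nonempty → ∑ e ∈ dl Z, v e + 2 ≤ (dl Z).card := by
    intro Z hZ
    have h1 := cut hN hT y Z hZ
    have h2 : ∑ e ∈ dl Z, v e = ((dl Z).filter (fun e => ge y e ∈ F)).card := by
      rw [card_filter]
    have h3 : ((dl Z).filter (fun e => ge y e ∈ F)).card +
        ((dl Z).filter (fun e => ¬ ge y e ∈ F)).card = (dl Z).card :=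
      card_filter_add_card_filter_not _
    omega
  have hv1 : ∀ e, v e ≤ 1 := by
    intro e
    simp only [hv]
    split_ifs <;> omega
  rw [card_filter]
  change ∑ e, v e ≤ 4
  have hall : (univ : Finset (Fin 15)) = {0, 1, 2, 3, 4, 5, 6, 7, 8, 9, 10, 11, 12, 13, 14} := by decide
  rw [hall]
  have c0 : v 0 + v 4 + v 5 ≤ 1 := by
    have h := hc {0} (by decide)
    rw [show dl {0} = {0, 4, 5} by decide, show ({0, 4, 5} : Finset (Fin 15)).card = 3 by decide,
      sum_insert (by decide), sum_insert (by decide), sum_singleton] at h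
    omega
  have c1 : v 0 + v 1 + v 6 ≤ 1 := by
    have h := hc {1} (by decide)
    rw [show dl {1} = {0, 1, 6} by decide, show ({0, 1, 6} : Finset (Fin 15)).card = 3 by decide,
      sum_insert (by decide), sum_insert (by decide), sum_singleton] at h
    omega
  have c2 : v 1 + v 2 + v 7 ≤ 1 := by
    have h := hc {2} (by decide)
    rw [show dl {2} = {1, 2, 7} by decide, show ({1, 2, 7} : Finset (Fin 15)).card = 3 by decide,
      sum_insert (by decide), sum_insert (by decide), sum_singleton] at h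
    omega
  have c3 : v 2 + v 3 + v 8 ≤ 1 := by
    have h := hc {3} (by decide)
    rw [show dl {3} = {2, 3, 8} by decide, show ({2, 3, 8} : Finset (Fin 15)).card = 3 by decide,
      sum_insert (by decide), sum_insert (by decide), sum_singleton] at h
    omega
  have c4 : v 3 + v 4 + v 12 ≤ 1 := by
    have h := hc {4} (by decide)
    rw [show dl {4} = {3, 4, 12} by decide, show ({3, 4, 12} : Finset (Fin 15)).card = 3 by decide,
      sum_insert (by decide), sum_insert (by decide), sum_singleton] at h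
    omega
  have c5 : v 5 + v 9 + v 11 ≤ 1 := by
    have h := hc {5} (by decide)
    rw [show dl {5} = {5, 9, 11} by decide, show ({5, 9, 11} : Finset (Fin 15)).card = 3 by decide,
      sum_insert (by decide), sum_insert (by decide), sum_singleton] at h
    omega
  have c6 : v 6 + v 10 + v 14 ≤ 1 := by
    have h := hc {6} (by decide)
    rw [show dl {6} = {6, 10, 14} by decide, show ({6, 10, 14} : Finset (Fin 15)).card = 3 by decide,
      sum_insert (by decide), sum_insert (by decide), sum_singleton] at h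
    omega
  have c7 : v 7 + v 9 + v 13 ≤ 1 := by
    have h := hc {7} (by decide)
    rw [show dl {7} = {7, 9, 13} by decide, show ({7, 9, 13} : Finset (Fin 15)).card = 3 by decide,
      sum_insert (by decide), sum_insert (by decide), sum_singleton] at h
    omega
  have c8 : v 8 + v 10 + v 11 ≤ 1 := by
    have h := hc {8} (by decide)
    rw [show dl {8} = {8, 10, 11} by decide, show ({8, 10, 11} : Finset (Fin 15)).card = 3 by decide,
      sum_insert (by decide), sum_insert (by decide), sum_singleton] at h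
    omega
  have c9 : v 12 + v 13 + v 14 ≤ 1 := by
    have h := hc {0, 1, 2, 3, 4, 5, 6, 7, 8} (by decide)
    rw [show dl {0, 1, 2, 3, 4, 5, 6, 7, 8} = {12, 13, 14} by decide, show ({12, 13, 14} : Finset (Fin 15)).card = 3 by decide,
      sum_insert (by decide), sum_insert (by decide), sum_singleton] at h
    omega
  have c10 : v 5 + v 6 + v 7 + v 8 + v 12 ≤ 3 := by
    have h := hc {0, 1, 2, 3, 4} (by decide)
    rw [show dl {0, 1, 2, 3, 4} = {5, 6, 7, 8, 12} by decide, show ({5, 6, 7, 8, 12} : Finset (Fin 15)).card = 5 by decide,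
      sum_insert (by decide), sum_insert (by decide), sum_insert (by decide), sum_insert (by decide), sum_singleton] at h
    omega
  have c11 : v 2 + v 4 + v 6 + v 11 + v 13 ≤ 3 := by
    have h := hc {0, 1, 2, 5, 7} (by decide)
    rw [show dl {0, 1, 2, 5, 7} = {2, 4, 6, 11, 13} by decide, show ({2, 4, 6, 11, 13} : Finset (Fin 15)).card = 5 by decide,
      sum_insert (by decide), sum_insert (by decide), sum_insert (by decide), sum_insert (by decide), sum_singleton] at h
    omega
  have c12 : v 1 + v 4 + v 8 + v 9 + v 14 ≤ 3 := by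
    have h := hc {0, 1, 5, 6, 8} (by decide)
    rw [show dl {0, 1, 5, 6, 8} = {1, 4, 8, 9, 14} by decide, show ({1, 4, 8, 9, 14} : Finset (Fin 15)).card = 5 by decide,
      sum_insert (by decide), sum_insert (by decide), sum_insert (by decide), sum_insert (by decide), sum_singleton] at h
    omega
  have c13 : v 0 + v 2 + v 9 + v 10 + v 12 ≤ 3 := by
    have h := hc {0, 3, 4, 5, 8} (by decide)
    rw [show dl {0, 3, 4, 5, 8} = {0, 2, 9, 10, 12} by decide, show ({0, 2, 9, 10, 12} : Finset (Fin 15)).card = 5 by decide,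
      sum_insert (by decide), sum_insert (by decide), sum_insert (by decide), sum_insert (by decide), sum_singleton] at h
    omega
  have c14 : v 0 + v 3 + v 7 + v 11 + v 14 ≤ 3 := by
    have h := hc {1, 2, 3, 6, 8} (by decide)
    rw [show dl {1, 2, 3, 6, 8} = {0, 3, 7, 11, 14} by decide, show ({0, 3, 7, 11, 14} : Finset (Fin 15)).card = 5 by decide,
      sum_insert (by decide), sum_insert (by decide), sum_insert (by decide), sum_insert (by decide), sum_singleton] at h
    omega
  have c15 : v 1 + v 3 + v 5 + v 10 + v 13 ≤ 3 := by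
    have h := hc {2, 3, 5, 7, 8} (by decide)
    rw [show dl {2, 3, 5, 7, 8} = {1, 3, 5, 10, 13} by decide, show ({1, 3, 5, 10, 13} : Finset (Fin 15)).card = 5 by decide,
      sum_insert (by decide), sum_insert (by decide), sum_insert (by decide), sum_insert (by decide), sum_singleton] at h
    omega
  have key := Pool.Agent.H76.num (v 0) (v 1) (v 2) (v 3) (v 4) (v 5) (v 6) (v 7) (v 8) (v 9) (v 10) (v 11) (v 12) (v 13) (v 14)
    c0 c1 c2 c3 c4 c5 c6 c7 c8 c9 c10 c11 c12 c13 c14 c15
  rw [sum_insert (by decide), sum_insert (by decide), sum_insert (by decide), sum_insert (by decide), sum_insert (by decide), sum_insert (by decide), sum_insert (by decide), sum_insert (by decide), sum_insert (by decide), sum_insert (by decide), sum_insert (by decide), sum_insert (by decide), sum_insert (by decide), sum_insert (by decide), sum_singleton]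
  omega

end Pool.Agent.H76.Pet
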