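import Pool.Agent.H76.RE.Pet

/-! The number of removable edges for the graph made from Petersen pieces. -/

namespace Pool.Agent.H76.Pet
open Finset Pool.Agent.H76.RE.Gen
open Pool.Agent.H76.RE (KC sep ne_succ Ad vertex_one)

variable {N j : ℕ} {F : Finset (Sym2 (Vg N (Fin 9) j))}

open Classical in
lemma piece_bound [NeZero N] (hN : 6 ≤ N)
    (hF : (F : Set (Sym2 (Vg N (Fin 9) j))) ⊆ (Gr N j X ports).edgeSet)
    (hT : KC ((Gr N j X ports).deleteEdges (F : Set (Sym2 (Vg N (Fin 9) j)))) (3 - 1)) (y : ZMod N) :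
    (F.filter (fun e => ∃ a : Fin 9, (pt y a : Vg N (Fin 9) j) ∈ e)).card ≤ 4 := by
  have hsub : F.filter (fun e => ∃ a : Fin 9, (pt y a : Vg N (Fin 9) j) ∈ e) ⊆
      ((univ : Finset (Fin 15)).filter (fun e => ge y e ∈ F)).image (ge y) := by
    intro e he
    obtain ⟨heF, a, ha⟩ := mem_filter.mp he
    obtain ⟨w, rfl⟩ := Sym2.mem_iff_exists.mp ha
    have hadj : (Gr N j X ports).Adj (pt y a) w := hF heF
    obtain ⟨e', he'⟩ := touch hadj
    have hge : ge y e' = s(pt y a, w) := by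
      rcases he' with ⟨h1, h2⟩ | ⟨h1, h2⟩
      · rw [h2, h1]; rfl
      · rw [h2]
        unfold ge
        rw [h1, Sym2.eq_swap]
        rfl
    exact mem_image.mpr ⟨e', mem_filter.mpr ⟨mem_univ _, by rw [hge]; exact heF⟩, hge⟩
  refine (card_le_card hsub).trans (card_image_le.trans ?_)
  have := four hN hT y
  convert this

lemma nb_ex [NeZero N] (hN : 6 ≤ N) (t : Fin j) : ∃ nb : Finset (Vg N (Fin 9) j), nb.card ≤ 3 ∧
    ∀ w, (Gr N j X ports).Adj (ex t) w → w ∈ nb := by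
  classical
  refine ⟨(univ : Finset (Fin 3)).image
    (fun l : Fin 3 => (sp (((l : ℕ) : ZMod N)) : Vg N (Fin 9) j)), ?_, ?_⟩
  · refine card_image_le.trans ?_
    rw [card_univ, Fintype.card_fin]
  · rintro (⟨y', i'⟩ | s | t') h
    · exact absurd h (by simp [Gr, adj])
    · have h1 : s.val < 3 := h
      refine mem_image.mpr ⟨⟨s.val, h1⟩, mem_univ _, ?_⟩
      show Sum.inr (Sum.inl _) = Sum.inr (Sum.inl s)
      rw [ZMod.natCast_zmod_val]
    · exact absurd h (by simp [Gr, adj])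

open Classical in
lemma ex_bound [NeZero N] (hN : 6 ≤ N)
    (hF : (F : Set (Sym2 (Vg N (Fin 9) j))) ⊆ (Gr N j X ports).edgeSet)
    (hT : KC ((Gr N j X ports).deleteEdges (F : Set (Sym2 (Vg N (Fin 9) j)))) (3 - 1)) (t : Fin j) :
    (F.filter (fun e => (ex t : Vg N (Fin 9) j) ∈ e)).card ≤ 1 := by
  refine card_le_one.mpr fun e he e' he' => ?_
  obtain ⟨he1, he2⟩ := mem_filter.mp he
  obtain ⟨he1', he2'⟩ := mem_filter.mp he'
  obtain ⟨w, rfl⟩ := Sym2.mem_iff_exists.mp he2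
  obtain ⟨w', rfl⟩ := Sym2.mem_iff_exists.mp he2'
  obtain ⟨nb, hc, hnb⟩ := nb_ex (j := j) hN t
  rw [vertex_one (by omega) hF hT nb hc hnb he1 he1']

open Classical in
theorem edge_bound [NeZero N] (hN : 6 ≤ N)
    (hF : (F : Set (Sym2 (Vg N (Fin 9) j))) ⊆ (Gr N j X ports).edgeSet)
    (hT : KC ((Gr N j X ports).deleteEdges (F : Set (Sym2 (Vg N (Fin 9) j)))) (3 - 1)) :
    F.card ≤ N * 4 + j := by
  have hsub : F ⊆ ((univ : Finset (ZMod N)).biUnion
        (fun y => F.filter (fun e => ∃ i : Fin 9, (pt y i : Vg N (Fin 9) j) ∈ e))) ∪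
      ((univ : Finset (Fin j)).biUnion (fun t => F.filter (fun e => (ex t : Vg N (Fin 9) j) ∈ e))) := by
    intro e he
    have hkey : (∃ y : ZMod N, ∃ i : Fin 9, (pt y i : Vg N (Fin 9) j) ∈ e) ∨
        ∃ t : Fin j, (ex t : Vg N (Fin 9) j) ∈ e := by
      have heE := hF he
      induction e using Sym2.ind with
      | _ a b =>
        have hab : (Gr N j X ports).Adj a b := heE
        rcases a with (⟨y, i⟩ | s | t)
        · exact Or.inl ⟨y, i, Sym2.mem_mk_left _ _⟩
        · rcases b with (⟨y, i⟩ | s' | t)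
          · exact Or.inl ⟨y, i, Sym2.mem_mk_right _ _⟩
          · exact absurd hab (by simp [Gr, adj])
          · exact Or.inr ⟨t, Sym2.mem_mk_right _ _⟩
        · exact Or.inr ⟨t, Sym2.mem_mk_left _ _⟩
    rcases hkey with ⟨y, hy⟩ | ⟨t, ht⟩
    · exact mem_union_left _ (mem_biUnion.mpr ⟨y, mem_univ _, mem_filter.mpr ⟨he, hy⟩⟩)
    · exact mem_union_right _ (mem_biUnion.mpr ⟨t, mem_univ _, mem_filter.mpr ⟨he, ht⟩⟩)
  refine (card_le_card hsub).trans ((card_union_le _ _).trans (Nat.add_le_add ?_ ?_))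
  · refine card_biUnion_le.trans ((sum_le_sum fun y _ => piece_bound hN hF hT y).trans ?_)
    simp [ZMod.card]
  · refine card_biUnion_le.trans ((sum_le_sum fun t _ => ex_bound hN hF hT t).trans ?_)
    simp

theorem pet_kc [NeZero N] (hN : 6 ≤ N) : KC (Gr N j X ports) 3 :=
  gr_kc ports_inj (by omega) (by omega) (fun S hS a ha => H1 S hS a ha)
    (fun S hS a b ha hb => H2 S hS a b ha hb)

end Pool.Agent.H76.Pet
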